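import Pool.Agent.N574.Dom

/-! Polynomial vertex growth: counting the words with few special letters. -/

set_option autoImplicit false

namespace Pool.Agent.N574.PV

open Finset

variable {t D : ℕ}

/-- the letters that are not special -/
def toL : Option (Fin t) → Letter t
  | none => .S
  | some i => .Mv i

theorem comm_MM (C : ℝ) (c : I t D → ℤ) (i j : Fin t) :
    act C c (.Mv i) * act C c (.Mv j) = act C c (.Mv j) * act C c (.Mv i) := by
  classical
  by_cases hij : i = j
  · subst hij; rfl
  · apply LinearMap.ext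
    intro v
    rw [Module.End.mul_apply, Module.End.mul_apply, act_Mv, act_Mv, act_Mv, act_Mv]
    refine Prod.ext rfl (Prod.ext ?_ rfl)
    funext e
    simp only
    rw [shM_mulVec, shM_mulVec]
    simp only [shM_mulVec]
    have h1 : ∀ b : Fin (D + 1), (Function.update e i b) j = e j := fun b =>
      Function.update_of_ne (Ne.symm hij) _ _
    have h2 : ∀ b : Fin (D + 1), (Function.update e j b) i = e i := fun b =>
      Function.update_of_ne hij _ _
    simp only [h1, h2, Finset.mul_sum]
    rw [Finset.sum_comm]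
    refine Finset.sum_congr rfl fun b _ => Finset.sum_congr rfl fun b' _ => ?_
    rw [Function.update_comm hij]
    ring

theorem comm_toL (C : ℝ) (c : I t D → ℤ) (i j : Option (Fin t)) :
    act C c (toL i) * act C c (toL j) = act C c (toL j) * act C c (toL i) := by
  have hS : ∀ g : Letter t, act C c .S * act C c g = act C c g * act C c .S := by
    intro g
    apply LinearMap.ext
    intro v
    rw [Module.End.mul_apply, Module.End.mul_apply, act_S, act_S, map_smul]
  cases i with
  | none => exact hS _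
  | some i =>
    cases j with
    | none => exact (hS _).symm
    | some j => exact comm_MM C c i j

theorem act'_perm (C : ℝ) (c : I t D → ℤ) (l l' : List (Option (Fin t))) (h : l.Perm l') :
    act' C c (l.map toL) = act' C c (l'.map toL) := by
  induction h with
  | nil => rfl
  | cons x _ ih => simp only [List.map_cons, act'_cons, ih]
  | swap x y l =>
    simp only [List.map_cons, act'_cons, mul_assoc]
    rw [comm_toL]
  | trans _ _ ih1 ih2 => exact ih1.trans ih2

/-- the common action of all words with given numbers of letters -/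
noncomputable def Phi (C : ℝ) (c : I t D → ℤ) (s : Multiset (Option (Fin t))) :
    Module.End ℝ (V t D) :=
  act' C c (s.toList.map toL)

theorem act'_eq_Phi (C : ℝ) (c : I t D → ℤ) (l : List (Option (Fin t))) :
    act' C c (l.map toL) = Phi C c (l : Multiset (Option (Fin t))) := by
  refine act'_perm C c _ _ ?_
  rw [← Multiset.coe_eq_coe, Multiset.coe_toList]

open Classical in
noncomputable def Bs (C : ℝ) (c : I t D → ℤ) (m : ℕ) : Finset (Module.End ℝ (V t D)) :=
  (Finset.univ : Finset (Option (Fin t) → Fin (m + 1))).image fun f =>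
    Phi C c (∑ i, (f i : ℕ) • ({i} : Multiset (Option (Fin t))))

theorem Bs_card (C : ℝ) (c : I t D → ℤ) (m : ℕ) : (Bs C c m).card ≤ (m + 1) ^ (t + 1) := by
  classical
  unfold Bs
  refine Finset.card_image_le.trans ?_
  rw [Finset.card_univ]
  simp

theorem mem_Bs (C : ℝ) (c : I t D → ℤ) (m : ℕ) (v : List (Letter t)) (hv : v.length ≤ m)
    (hs : v.countP isSp = 0) : act' C c v ∈ Bs C c m := by
  classical
  have h1 : ∃ l : List (Option (Fin t)), v = l.map toL := by
    clear hv
    induction v with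
    | nil => exact ⟨[], rfl⟩
    | cons g v ih =>
      rw [List.countP_cons] at hs
      obtain ⟨l, rfl⟩ := ih (by omega)
      have hg : isSp g = false := by
        by_contra h
        rw [Bool.not_eq_false] at h
        rw [if_pos h] at hs
        omega
      cases g with
      | S => exact ⟨none :: l, rfl⟩
      | Mv i => exact ⟨some i :: l, rfl⟩
      | Zt b => simp [isSp] at hg
      | En _ => simp [isSp] at hg
      | Ex _ => simp [isSp] at hg
      | K _ => simp [isSp] at hg
      | O => simp [isSp] at hg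
  obtain ⟨l, rfl⟩ := h1
  rw [act'_eq_Phi]
  unfold Bs
  rw [Finset.mem_image]
  rw [List.length_map] at hv
  refine ⟨fun i => ⟨Multiset.count i (l : Multiset (Option (Fin t))), Nat.lt_succ_of_le
    ((Multiset.count_le_card _ _).trans (by simpa using hv))⟩, Finset.mem_univ _, ?_⟩
  congr 1
  ext a
  simp only
  rw [Multiset.count_sum']
  simp [Multiset.count_singleton]

/-- a finite list of all letters -/
def spL (t : ℕ) : Finset (Letter t) :=
  {.S, .O, .Zt true, .Zt false} ∪ (Finset.univ.image Letter.En ∪ (Finset.univ.image Letter.Mv ∪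
    (Finset.univ.image Letter.Ex ∪ Finset.univ.image Letter.K)))

theorem mem_spL (g : Letter t) : g ∈ spL t := by
  unfold spL
  cases g with
  | S => simp
  | Mv i => simp
  | Zt b => cases b <;> simp
  | En _ => simp
  | Ex _ => simp
  | K _ => simp
  | O => simp

open Classical in
noncomputable def Gs (C : ℝ) (c : I t D → ℤ) (m : ℕ) : ℕ → Finset (Module.End ℝ (V t D))
  | 0 => Bs C c m
  | s + 1 => Bs C c m ∪ ((Bs C c m ×ˢ (spL t ×ˢ Gs C c m s)).image
      fun p => p.2.2 * act C c p.2.1 * p.1)

open Classical in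
theorem Gs_succ (C : ℝ) (c : I t D → ℤ) (m s : ℕ) :
    Gs C c m (s + 1) = Bs C c m ∪ ((Bs C c m ×ˢ (spL t ×ˢ Gs C c m s)).image
      fun p => p.2.2 * act C c p.2.1 * p.1) := rfl

theorem arith_aux (b κ s x : ℕ) (hb : 1 ≤ b) (hx : x ≤ (κ + 1) ^ s * b ^ (s + 1)) :
    b + b * (κ * x) ≤ (κ + 1) ^ (s + 1) * b ^ (s + 1 + 1) := by
  have h3 : b ≤ b * ((κ + 1) ^ s * b ^ (s + 1)) := by
    refine Nat.le_mul_of_pos_right _ ?_
    positivity
  have h2 : b * (κ * x) ≤ b * (κ * ((κ + 1) ^ s * b ^ (s + 1))) :=
    Nat.mul_le_mul_left _ (Nat.mul_le_mul_left _ hx)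
  calc b + b * (κ * x)
      ≤ b * ((κ + 1) ^ s * b ^ (s + 1)) + b * (κ * ((κ + 1) ^ s * b ^ (s + 1))) :=
        Nat.add_le_add h3 h2
    _ = (κ + 1) ^ (s + 1) * b ^ (s + 1 + 1) := by ring

theorem Gs_card (C : ℝ) (c : I t D → ℤ) (m s : ℕ) :
    (Gs C c m s).card ≤ ((spL t).card + 1) ^ s * ((m + 1) ^ (t + 1)) ^ (s + 1) := by
  classical
  induction s with
  | zero => simpa [Gs] using Bs_card C c m
  | succ s ih =>
    refine le_trans ?_ (arith_aux ((m + 1) ^ (t + 1)) (spL t).card s _
      (Nat.one_le_pow _ _ (by omega)) ih)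
    rw [Gs_succ]
    refine (Finset.card_union_le _ _).trans (Nat.add_le_add (Bs_card C c m) ?_)
    refine Finset.card_image_le.trans ?_
    rw [Finset.card_product, Finset.card_product]
    exact Nat.mul_le_mul_right _ (Bs_card C c m)

theorem split_first (v : List (Letter t)) (hv : v.countP isSp ≠ 0) :
    ∃ v0 g v1, v = v0 ++ g :: v1 ∧ v0.countP isSp = 0 ∧ v1.countP isSp + 1 = v.countP isSp := by
  induction v with
  | nil => simp at hv
  | cons g v ih =>
    rw [List.countP_cons] at hv
    by_cases hg : isSp g = true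
    · refine ⟨[], g, v, rfl, by simp, ?_⟩
      rw [List.countP_cons, if_pos hg]
    · rw [if_neg hg] at hv
      obtain ⟨v0, g', v1, h1, h2, h3⟩ := ih (by omega)
      refine ⟨g :: v0, g', v1, by rw [h1]; rfl, ?_, ?_⟩
      · rw [List.countP_cons, if_neg hg, h2]
      · rw [List.countP_cons, if_neg hg, h3, add_zero]

theorem mem_Gs (C : ℝ) (c : I t D → ℤ) (m s : ℕ) (v : List (Letter t)) (hv : v.length ≤ m)
    (hs : v.countP isSp ≤ s) : act' C c v ∈ Gs C c m s := by
  classical
  induction s generalizing v with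
  | zero => exact mem_Bs C c m v hv (by omega)
  | succ s ih =>
    rw [Gs_succ, Finset.mem_union]
    by_cases h0 : v.countP isSp = 0
    · left
      exact mem_Bs C c m v hv h0
    · right
      obtain ⟨v0, g, v1, rfl, h2, h3⟩ := split_first v h0
      simp only [List.length_append, List.length_cons] at hv
      rw [Finset.mem_image]
      refine ⟨(act' C c v0, g, act' C c v1), ?_, ?_⟩
      · rw [Finset.mem_product, Finset.mem_product]
        exact ⟨mem_Bs C c m v0 (by omega) h2, mem_spL g, ih v1 (by omega) (by omega)⟩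
      · rw [act'_append, act'_cons]

theorem few_sub (C : ℝ) (c : I t D → ℤ) (m s : ℕ) : few C c m s ⊆ (Gs C c m s : Set _) := by
  rintro _ ⟨d, hd, hs, rfl⟩
  exact mem_Gs C c m s d hd.le hs

theorem up_aux {C ρ : ℝ} {c : I t D → ℤ} (hG : Good C c ρ)
    (hP : ∀ n : Fin t → ℕ, 0 ≤ dc c (ev n)) (l : List (Fin t))
    (hl : dc c (ev (fun i => l.count i) : I t D → ℝ) = 0) (R : ℕ)
    (hR : C ^ (l.length + 2) ≤ 2 ^ R) (a : V t D) (k : ℕ) :
    (Set.extremePoints ℝ (convexHull ℝ
      (reachV (Set.range fun g : Letter t => ⇑(act C c g)) a k))).ncard ≤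
      ((spL t).card + 1) ^ (R + 2) * ((k + 1) ^ (t + 1)) ^ (R + 3) := by
  classical
  set R0 := reachV (Set.range fun g : Letter t => ⇑(act C c g)) a k with hR0
  let A : Set (V t D) := (fun T : Module.End ℝ (V t D) => T a) '' (few C c k (R + 2))
  have hAR : A ⊆ R0 := by
    rintro _ ⟨_, ⟨d, hd, _, rfl⟩, rfl⟩
    rw [hR0, mem_reach_iff]
    exact ⟨d, hd, rfl⟩
  have hRA : R0 ⊆ convexHull ℝ A := by
    intro y hy
    rw [hR0, mem_reach_iff] at hy
    obtain ⟨w, hw, rfl⟩ := hy
    have h1 := hull hG hP l hl R hR w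
    rw [hw] at h1
    have h2 : act' C c w a ∈ (LinearMap.applyₗ a : Module.End ℝ (V t D) →ₗ[ℝ] V t D) ''
        (convexHull ℝ (few C c k (R + 2))) := ⟨_, h1, rfl⟩
    rw [LinearMap.image_convexHull] at h2
    exact h2
  have hconv : convexHull ℝ R0 = convexHull ℝ A :=
    Set.Subset.antisymm (convexHull_min hRA (convex_convexHull ℝ A)) (convexHull_mono hAR)
  rw [hconv]
  have h3 : Set.extremePoints ℝ (convexHull ℝ A) ⊆
      ((Gs C c k (R + 2)).image (fun T : Module.End ℝ (V t D) => T a) : Finset (V t D)) := by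
    refine extremePoints_convexHull_subset.trans ?_
    rintro _ ⟨T, hT, rfl⟩
    rw [Finset.coe_image]
    exact ⟨T, few_sub C c k (R + 2) hT, rfl⟩
  refine (Set.ncard_le_ncard h3 (Finset.finite_toSet _)).trans ?_
  rw [Set.ncard_coe_finset]
  exact Finset.card_image_le.trans (Gs_card C c k (R + 2))

/-- polynomial growth if the equation has a solution -/
theorem up {C ρ : ℝ} {c : I t D → ℤ} (hG : Good C c ρ)
    (hP : ∀ n : Fin t → ℕ, 0 ≤ dc c (ev n)) (n : Fin t → ℕ)
    (hn : dc c (ev n : I t D → ℝ) = 0) :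
    ∃ α d : ℕ, 0 < α ∧ 0 < d ∧ ∀ k : ℕ, 1 ≤ k → ∀ a : V t D,
      (Set.extremePoints ℝ (convexHull ℝ
        (reachV (Set.range fun g : Letter t => ⇑(act C c g)) a k))).ncard ≤ α * k ^ d := by
  obtain ⟨l, hl⟩ := exists_list n
  have hl' : (fun i => l.count i) = n := funext hl
  obtain ⟨R, hR⟩ := pow_unbounded_of_one_lt (C ^ (l.length + 2)) (by norm_num : (1 : ℝ) < 2)
  refine ⟨((spL t).card + 1) ^ (R + 2) * 2 ^ ((t + 1) * (R + 3)), (t + 1) * (R + 3),
    Nat.mul_pos (Nat.pow_pos (Nat.succ_pos _)) (Nat.pow_pos (by norm_num)),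
    Nat.mul_pos (Nat.succ_pos _) (Nat.succ_pos _), ?_⟩
  intro k hk a
  refine (up_aux hG hP l (by rw [hl']; exact hn) R hR.le a k).trans ?_
  rw [mul_assoc, ← mul_pow, ← pow_mul]
  exact Nat.mul_le_mul_left _ (Nat.pow_le_pow_left (by omega) _)

end Pool.Agent.N574.PV
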