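import Pool.Agent.N574.Cnt
import Pool.Agent.H761R3.Sys

/-! Polynomial vertex growth: the equations. -/

set_option autoImplicit false

namespace Pool.Agent.N574.PV

open Finset Pool.Agent.H761R3.Sys

variable {t D : ℕ}

/-- functions given by integer linear forms in the monomials -/
def Rep (t D : ℕ) (f : (Fin t → ℕ) → ℤ) : Prop :=
  ∃ c : I t D → ℤ, ∀ n, dc c (ev n) = (f n : ℝ)

theorem dc_add_left (c c' : I t D → ℤ) (x : I t D → ℝ) : dc (c + c') x = dc c x + dc c' x := by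
  simp [dc, add_mul, Finset.sum_add_distrib]

theorem dc_smul_left (z : ℤ) (c : I t D → ℤ) (x : I t D → ℝ) : dc (z • c) x = z * dc c x := by
  simp only [dc, Pi.smul_apply, smul_eq_mul, Finset.mul_sum]
  exact Finset.sum_congr rfl fun e _ => by push_cast; ring

theorem Rep.add {f g : (Fin t → ℕ) → ℤ} (hf : Rep t D f) (hg : Rep t D g) :
    Rep t D (fun n => f n + g n) := by
  obtain ⟨c, hc⟩ := hf
  obtain ⟨c', hc'⟩ := hg
  refine ⟨c + c', fun n => ?_⟩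
  rw [dc_add_left, hc, hc']
  push_cast
  rfl

theorem Rep.smul {f : (Fin t → ℕ) → ℤ} (z : ℤ) (hf : Rep t D f) :
    Rep t D (fun n => z * f n) := by
  obtain ⟨c, hc⟩ := hf
  refine ⟨z • c, fun n => ?_⟩
  rw [dc_smul_left, hc]
  push_cast
  rfl

theorem Rep.congr {f g : (Fin t → ℕ) → ℤ} (hf : Rep t D f) (h : ∀ n, g n = f n) :
    Rep t D g := by
  obtain ⟨c, hc⟩ := hf
  exact ⟨c, fun n => by rw [hc, h]⟩

theorem Rep.zero : Rep t D (fun _ => 0) := ⟨0, fun n => by simp [dc]⟩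

theorem Rep.mono (l : List (Fin t)) (hl : l.length ≤ D) :
    Rep t D (fun n => (l.map fun i => (n i : ℤ)).prod) := by
  refine ⟨Pi.single (fun i => ⟨l.count i, Nat.lt_succ_of_le (List.count_le_length.trans hl)⟩) 1,
    fun n => ?_⟩
  unfold dc
  rw [Finset.sum_eq_single
    ((fun i => ⟨l.count i, Nat.lt_succ_of_le (List.count_le_length.trans hl)⟩) : I t D)]
  · rw [Pi.single_eq_same]
    unfold ev
    simp only [Int.cast_one, one_mul]
    rw [Finset.prod_list_map_count, Int.cast_prod]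
    symm
    push_cast
    refine Finset.prod_subset (Finset.subset_univ _) fun i _ hi => ?_
    rw [List.mem_toFinset, ← List.count_eq_zero] at hi
    rw [hi, pow_zero]
  · intro e _ he
    rw [Pi.single_eq_of_ne he]
    simp
  · simp

/-- the defect of a constraint -/
def dfc (x : ℕ → ℕ) : Con → ℤ
  | .add i j l => (x i : ℤ) + x j - x l
  | .one i => (x i : ℤ) - 1
  | .mul i j l => (x i : ℤ) * x j - x l

theorem dfc_zero (x : ℕ → ℕ) (c : Con) : dfc x c = 0 ↔ c.Holds x := by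
  cases c with
  | add i j l =>
    simp only [dfc, Con.Holds]
    omega
  | one i =>
    simp only [dfc, Con.Holds]
    omega
  | mul i j l =>
    simp only [dfc, Con.Holds]
    rw [sub_eq_zero]
    exact_mod_cast Iff.rfl

/-- extension by zero -/
def exz (n : Fin t → ℕ) : ℕ → ℕ := fun i => if h : i < t then n ⟨i, h⟩ else 0

theorem rep_dfc (c : Con) (hc : c.Below t) : Rep t 4 (fun n => (dfc (exz n) c) ^ 2) := by
  cases c with
  | add i j l =>
    obtain ⟨hi, hj, hl⟩ := hc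
    refine ((((((Rep.mono [⟨i, hi⟩, ⟨i, hi⟩] (by simp)).add
      (Rep.mono [⟨j, hj⟩, ⟨j, hj⟩] (by simp))).add
      (Rep.mono [⟨l, hl⟩, ⟨l, hl⟩] (by simp))).add
      ((Rep.mono [⟨i, hi⟩, ⟨j, hj⟩] (by simp)).smul 2)).add
      ((Rep.mono [⟨i, hi⟩, ⟨l, hl⟩] (by simp)).smul (-2))).add
      ((Rep.mono [⟨j, hj⟩, ⟨l, hl⟩] (by simp)).smul (-2))).congr fun n => ?_
    simp only [dfc, exz, hi, hj, hl, dif_pos, List.map_cons, List.map_nil, List.prod_cons,
      List.prod_nil]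
    ring
  | one i =>
    have hi : i < t := hc
    refine (((Rep.mono [⟨i, hi⟩, ⟨i, hi⟩] (by simp)).add
      ((Rep.mono [⟨i, hi⟩] (by simp)).smul (-2))).add
      (Rep.mono [] (by simp))).congr fun n => ?_
    simp only [dfc, exz, hi, dif_pos, List.map_cons, List.map_nil, List.prod_cons,
      List.prod_nil]
    ring
  | mul i j l =>
    obtain ⟨hi, hj, hl⟩ := hc
    refine (((Rep.mono [⟨i, hi⟩, ⟨i, hi⟩, ⟨j, hj⟩, ⟨j, hj⟩] (by simp)).add
      ((Rep.mono [⟨i, hi⟩, ⟨j, hj⟩, ⟨l, hl⟩] (by simp)).smul (-2))).add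
      (Rep.mono [⟨l, hl⟩, ⟨l, hl⟩] (by simp))).congr fun n => ?_
    simp only [dfc, exz, hi, hj, hl, dif_pos, List.map_cons, List.map_nil, List.prod_cons,
      List.prod_nil]
    ring

theorem rep_sum (L : List Con) (hL : ∀ c ∈ L, c.Below t) :
    Rep t 4 (fun n => (L.map fun c => (dfc (exz n) c) ^ 2).sum) := by
  induction L with
  | nil => exact Rep.zero
  | cons c L ih =>
    refine ((rep_dfc c (hL c (by simp))).add (ih fun c' hc' => hL c' (by simp [hc']))).congr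
      fun n => ?_
    simp

theorem sum_sq_nonneg (x : ℕ → ℕ) (L : List Con) :
    0 ≤ (L.map fun c => (dfc x c) ^ 2).sum := by
  induction L with
  | nil => simp
  | cons c L ih =>
    simp only [List.map_cons, List.sum_cons]
    have := sq_nonneg (dfc x c)
    omega

theorem sum_sq_zero (x : ℕ → ℕ) (L : List Con) :
    (L.map fun c => (dfc x c) ^ 2).sum = 0 ↔ ∀ c ∈ L, c.Holds x := by
  induction L with
  | nil => simp
  | cons c L ih =>
    simp only [List.map_cons, List.sum_cons, List.mem_cons, forall_eq_or_imp]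
    rw [← ih, ← dfc_zero]
    have h1 := sq_nonneg (dfc x c)
    have h2 := sum_sq_nonneg x L
    constructor
    · intro h
      have h3 : dfc x c ^ 2 = 0 := by omega
      exact ⟨pow_eq_zero_iff (two_ne_zero) |>.1 h3, by omega⟩
    · rintro ⟨h3, h4⟩
      rw [h3, h4]
      norm_num

theorem holds_congr (c : Con) (hc : c.Below t) (x y : ℕ → ℕ) (h : ∀ i < t, x i = y i) :
    c.Holds x ↔ c.Holds y := by
  cases c with
  | add i j l =>
    obtain ⟨hi, hj, hl⟩ := hc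
    simp only [Con.Holds, h i hi, h j hj, h l hl]
  | one i =>
    have hi : i < t := hc
    simp only [Con.Holds, h i hi]
  | mul i j l =>
    obtain ⟨hi, hj, hl⟩ := hc
    simp only [Con.Holds, h i hi, h j hj, h l hl]

theorem exists_eqn (W : ℕ → Prop) (hW : REPred W) :
    ∃ (t : ℕ) (c0 c1 c2 : I t 4 → ℤ), ∀ a : ℕ,
      (∀ n : Fin t → ℕ, ∃ p : ℤ, 0 ≤ p ∧
        dc (c0 + ((a : ℤ) • c1 + (a : ℤ) ^ 2 • c2)) (ev n) = (p : ℝ)) ∧
      (W a ↔ ∃ n : Fin t → ℕ, dc (c0 + ((a : ℤ) • c1 + (a : ℤ) ^ 2 • c2)) (ev n) = 0) := by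
  obtain ⟨t, L, ht, hL, hS⟩ := exists_sys W hW
  have h0 : 0 < t := ht
  have hr0 : Rep t 4 (fun n => (L.map fun c => (dfc (exz n) c) ^ 2).sum +
      (n ⟨0, h0⟩ : ℤ) ^ 2) := by
    refine ((rep_sum L hL).add (Rep.mono [⟨0, h0⟩, ⟨0, h0⟩] (by simp))).congr fun n => ?_
    simp [sq]
  have hr1 : Rep t 4 (fun n => -2 * (n ⟨0, h0⟩ : ℤ)) := by
    refine ((Rep.mono [⟨0, h0⟩] (by simp)).smul (-2)).congr fun n => ?_
    simp
  have hr2 : Rep t 4 (fun _ => (1 : ℤ)) := by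
    refine (Rep.mono [] (by simp)).congr fun n => ?_
    simp
  obtain ⟨c0, hc0⟩ := hr0
  obtain ⟨c1, hc1⟩ := hr1
  obtain ⟨c2, hc2⟩ := hr2
  refine ⟨t, c0, c1, c2, fun a => ?_⟩
  have key : ∀ n : Fin t → ℕ, dc (c0 + ((a : ℤ) • c1 + (a : ℤ) ^ 2 • c2)) (ev n) =
      (((L.map fun c => (dfc (exz n) c) ^ 2).sum + ((n ⟨0, h0⟩ : ℤ) - a) ^ 2 : ℤ) : ℝ) := by
    intro n
    rw [dc_add_left, dc_add_left, dc_smul_left, dc_smul_left, hc0, hc1, hc2]
    push_cast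
    ring
  refine ⟨fun n => ⟨_, ?_, key n⟩, ?_⟩
  · have h1 := sum_sq_nonneg (exz n) L
    have h2 := sq_nonneg ((n ⟨0, h0⟩ : ℤ) - a)
    omega
  · rw [hS]
    constructor
    · rintro ⟨x, hx0, hx⟩
      refine ⟨fun i => x i, ?_⟩
      rw [key]
      have hxz : ∀ i < t, exz (fun i : Fin t => x i) i = x i := by
        intro i hi
        simp [exz, hi]
      have h1 : (L.map fun c => (dfc (exz (fun i : Fin t => x i)) c) ^ 2).sum = 0 := by
        rw [sum_sq_zero]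
        intro c hc
        rw [holds_congr c (hL c hc) _ x hxz]
        exact hx c hc
      rw [h1]
      simp [hx0]
    · rintro ⟨n, hn⟩
      rw [key] at hn
      have hn' : (L.map fun c => (dfc (exz n) c) ^ 2).sum + ((n ⟨0, h0⟩ : ℤ) - a) ^ 2 = 0 := by
        exact_mod_cast hn
      have h1 := sum_sq_nonneg (exz n) L
      have h2 := sq_nonneg ((n ⟨0, h0⟩ : ℤ) - a)
      have h3 : ((n ⟨0, h0⟩ : ℤ) - a) ^ 2 = 0 := by omega
      have h4 : (L.map fun c => (dfc (exz n) c) ^ 2).sum = 0 := by omega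
      rw [sum_sq_zero] at h4
      have h5 : (n ⟨0, h0⟩ : ℤ) - a = 0 := (pow_eq_zero_iff two_ne_zero).1 h3
      refine ⟨exz n, ?_, h4⟩
      simp only [exz, h0, dif_pos]
      omega

/-- the constant `C` -/
theorem exists_good (t : ℕ) (c0 c1 c2 : I t D → ℤ) : ∃ (B : ℕ) (ρ : ℝ), ∀ a : ℕ,
    Good ((B * (a + 1) ^ 2 : ℤ) : ℝ) (c0 + ((a : ℤ) • c1 + (a : ℤ) ^ 2 • c2)) ρ := by
  classical
  let ρ : ℝ := 6 + ∑ i : Fin t, ∑ e : I t D, ∑ e' : I t D, |((shM i e e' : ℤ) : ℝ)|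
  have hρ : 6 ≤ ρ := by
    have : 0 ≤ ∑ i : Fin t, ∑ e : I t D, ∑ e' : I t D, |((shM i e e' : ℤ) : ℝ)| :=
      Finset.sum_nonneg fun i _ => Finset.sum_nonneg fun e _ => Finset.sum_nonneg fun e' _ =>
        abs_nonneg _
    show 6 ≤ 6 + _
    linarith
  obtain ⟨B, hB⟩ := exists_nat_ge (2 * ρ + 26 + ∑ e, |(c0 e : ℝ)| + ∑ e, |(c1 e : ℝ)| +
    ∑ e, |(c2 e : ℝ)| + 1)
  have n0 : 0 ≤ ∑ e, |(c0 e : ℝ)| := Finset.sum_nonneg fun e _ => abs_nonneg _
  have n1 : 0 ≤ ∑ e, |(c1 e : ℝ)| := Finset.sum_nonneg fun e _ => abs_nonneg _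
  have n2 : 0 ≤ ∑ e, |(c2 e : ℝ)| := Finset.sum_nonneg fun e _ => abs_nonneg _
  refine ⟨B, ρ, fun a => ?_⟩
  have ha : (0 : ℝ) ≤ a := Nat.cast_nonneg a
  have hBB : (B : ℝ) ≤ ((B * (a + 1) ^ 2 : ℤ) : ℝ) := by
    push_cast
    have h1 : (1 : ℝ) ≤ ((a : ℝ) + 1) ^ 2 := one_le_pow₀ (by linarith)
    have h2 : (0 : ℝ) ≤ B := Nat.cast_nonneg B
    nlinarith
  refine ⟨hρ, ?_, by linarith, by linarith, ?_⟩
  · intro i x hx
    have h1 : ∀ e : I t D, ((shM i).map (Int.cast : ℤ → ℝ)).mulVec x e ≤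
        (∑ e' : I t D, |((shM i e e' : ℤ) : ℝ)|) * ∑ e', x e' := by
      intro e
      unfold Matrix.mulVec dotProduct
      rw [Finset.sum_mul]
      refine Finset.sum_le_sum fun e' _ => ?_
      have h2 : x e' ≤ ∑ e', x e' :=
        Finset.single_le_sum (fun i _ => hx i) (Finset.mem_univ e')
      show ((shM i e e' : ℤ) : ℝ) * x e' ≤ |((shM i e e' : ℤ) : ℝ)| * ∑ e', x e'
      calc ((shM i e e' : ℤ) : ℝ) * x e' ≤ |((shM i e e' : ℤ) : ℝ)| * x e' :=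
            mul_le_mul_of_nonneg_right (le_abs_self _) (hx e')
        _ ≤ _ := mul_le_mul_of_nonneg_left h2 (abs_nonneg _)
    refine (Finset.sum_le_sum fun e _ => h1 e).trans ?_
    rw [← Finset.sum_mul]
    refine mul_le_mul_of_nonneg_right ?_ (Finset.sum_nonneg fun e _ => hx e)
    have h3 : ∑ e : I t D, ∑ e' : I t D, |((shM i e e' : ℤ) : ℝ)| ≤
        ∑ i : Fin t, ∑ e : I t D, ∑ e' : I t D, |((shM i e e' : ℤ) : ℝ)| :=
      Finset.single_le_sum (f := fun i : Fin t =>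
        ∑ e : I t D, ∑ e' : I t D, |((shM i e e' : ℤ) : ℝ)|)
        (fun i _ => Finset.sum_nonneg fun e _ => Finset.sum_nonneg fun e' _ => abs_nonneg _)
        (Finset.mem_univ i)
    show _ ≤ 6 + _
    linarith
  · have h1 : ∀ e, |((((c0 + ((a : ℤ) • c1 + (a : ℤ) ^ 2 • c2)) e : ℤ)) : ℝ)| ≤
        |(c0 e : ℝ)| + (a * |(c1 e : ℝ)| + a ^ 2 * |(c2 e : ℝ)|) := by
      intro e
      simp only [Pi.add_apply, Pi.smul_apply, smul_eq_mul]
      push_cast
      refine (abs_add_le _ _).trans ?_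
      have h2 := abs_add_le ((a : ℝ) * (c1 e : ℝ)) ((a : ℝ) ^ 2 * (c2 e : ℝ))
      rw [abs_mul, abs_mul, abs_of_nonneg ha, abs_of_nonneg (pow_nonneg ha 2)] at h2
      linarith
    have h2 := Finset.sum_le_sum fun e (_ : e ∈ Finset.univ) => h1 e
    rw [Finset.sum_add_distrib, Finset.sum_add_distrib, ← Finset.mul_sum, ← Finset.mul_sum] at h2
    refine (add_le_add_left h2 1).trans ?_
    have h3 : ((B * (a + 1) ^ 2 : ℤ) : ℝ) = B * ((a : ℝ) + 1) ^ 2 := by push_cast; ring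
    rw [h3]
    have h4 : (∑ e, |(c0 e : ℝ)| + ∑ e, |(c1 e : ℝ)| + ∑ e, |(c2 e : ℝ)| + 1) *
        ((a : ℝ) + 1) ^ 2 ≤ B * ((a : ℝ) + 1) ^ 2 :=
      mul_le_mul_of_nonneg_right (by linarith) (by positivity)
    have h5 : 0 ≤ (a : ℝ) * ∑ e, |(c0 e : ℝ)| := mul_nonneg ha n0
    have h6 : 0 ≤ (a : ℝ) ^ 2 * ∑ e, |(c0 e : ℝ)| := mul_nonneg (by positivity) n0
    have h7 : 0 ≤ (a : ℝ) * ∑ e, |(c1 e : ℝ)| := mul_nonneg ha n1
    have h8 : 0 ≤ (a : ℝ) ^ 2 * ∑ e, |(c1 e : ℝ)| := mul_nonneg (by positivity) n1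
    have h9 : 0 ≤ (a : ℝ) * ∑ e, |(c2 e : ℝ)| := mul_nonneg ha n2
    have h10 : 0 ≤ (a : ℝ) ^ 2 := by positivity
    nlinarith

end Pool.Agent.N574.PV
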