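import Pool.Agent.N574.Trans
import Pool.Agent.N574.Eqn
import Pool.Agent.R569.Halt

/-! Polynomial vertex growth: computability of the reduction. -/

set_option autoImplicit false

namespace Pool.Agent.N574.PV

open Finset Pool.Agent.N574.Growth

namespace Prim

open Encodable

theorem encode_int_ofNat (n : ℕ) : encode (n : ℤ) = 2 * n := rfl
theorem encode_int_negSucc (n : ℕ) : encode (Int.negSucc n) = 2 * n + 1 := rfl

theorem prim_toNat : Primrec Int.toNat := by
  have h : Primrec (fun n : ℕ => if n % 2 = 0 then n / 2 else 0) := by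
    refine Primrec.ite ?_ ?_ (Primrec.const 0)
    · exact Primrec.eq.comp (Primrec.nat_mod.comp Primrec.id (Primrec.const 2)) (Primrec.const 0)
    · exact Primrec.nat_div.comp Primrec.id (Primrec.const 2)
  refine (h.comp Primrec.encode).of_eq fun z => ?_
  cases z with
  | ofNat n =>
    show (if (encode (n : ℤ)) % 2 = 0 then (encode (n : ℤ)) / 2 else 0) = n
    rw [encode_int_ofNat, if_pos (by omega)]; omega
  | negSucc n =>
    show (if (encode (Int.negSucc n)) % 2 = 0 then (encode (Int.negSucc n)) / 2 else 0) = 0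
    rw [encode_int_negSucc, if_neg (by omega)]

theorem prim_toNat_neg : Primrec (fun z : ℤ => (-z).toNat) := by
  have h : Primrec (fun n : ℕ => if n % 2 = 0 then 0 else n / 2 + 1) := by
    refine Primrec.ite ?_ (Primrec.const 0) ?_
    · exact Primrec.eq.comp (Primrec.nat_mod.comp Primrec.id (Primrec.const 2)) (Primrec.const 0)
    · exact Primrec.succ.comp (Primrec.nat_div.comp Primrec.id (Primrec.const 2))
  refine (h.comp Primrec.encode).of_eq fun z => ?_
  cases z with
  | ofNat n =>
    show (if (encode (n : ℤ)) % 2 = 0 then 0 else (encode (n : ℤ)) / 2 + 1) = (-(n:ℤ)).toNat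
    rw [encode_int_ofNat, if_pos (by omega)]; omega
  | negSucc n =>
    show (if (encode (Int.negSucc n)) % 2 = 0 then 0 else (encode (Int.negSucc n)) / 2 + 1) =
      (-(Int.negSucc n)).toNat
    rw [encode_int_negSucc, if_neg (by omega)]
    rw [Int.neg_negSucc]
    simp
    omega

theorem prim_natSub : Primrec₂ (fun p q : ℕ => (p : ℤ) - (q : ℤ)) := by
  have h : Primrec₂ (fun p q : ℕ => if q ≤ p then 2 * (p - q) else 2 * (q - p) - 1) := by
    refine Primrec.ite ?_ ?_ ?_
    · exact Primrec.nat_le.comp Primrec.snd Primrec.fst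
    · exact Primrec.nat_mul.comp (Primrec.const 2) (Primrec.nat_sub.comp Primrec.fst Primrec.snd)
    · exact Primrec.nat_sub.comp (Primrec.nat_mul.comp (Primrec.const 2)
        (Primrec.nat_sub.comp Primrec.snd Primrec.fst)) (Primrec.const 1)
  refine Primrec.encode_iff.1 (Primrec.of_eq (α := ℕ × ℕ) h fun a => ?_)
  obtain ⟨p, q⟩ := a
  show (if q ≤ p then 2 * (p - q) else 2 * (q - p) - 1) = encode ((p : ℤ) - (q : ℤ))
  split_ifs with hq
  · have : (p : ℤ) - q = ((p - q : ℕ) : ℤ) := by omega
    rw [this, encode_int_ofNat]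
  · have : (p : ℤ) - q = Int.negSucc (q - p - 1) := by
      rw [Int.negSucc_eq]; omega
    rw [this, encode_int_negSucc]; omega

theorem prim_natCast : Primrec (fun p : ℕ => (p : ℤ)) := by
  refine (prim_natSub.comp Primrec.id (Primrec.const 0)).of_eq fun n => ?_
  simp

theorem prim_int_of_parts (f : ℤ → ℤ → ℤ) (P N : ℕ → ℕ → ℕ → ℕ → ℕ)
    (hP : Primrec (fun a : (ℕ × ℕ) × (ℕ × ℕ) => P a.1.1 a.1.2 a.2.1 a.2.2))
    (hN : Primrec (fun a : (ℕ × ℕ) × (ℕ × ℕ) => N a.1.1 a.1.2 a.2.1 a.2.2))
    (h : ∀ x y, f x y = (P x.toNat (-x).toNat y.toNat (-y).toNat : ℤ) -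
      (N x.toNat (-x).toNat y.toNat (-y).toNat : ℤ)) : Primrec₂ f := by
  have hx : Primrec (fun a : ℤ × ℤ => ((a.1.toNat, (-a.1).toNat), (a.2.toNat, (-a.2).toNat))) :=
    Primrec.pair (Primrec.pair (prim_toNat.comp Primrec.fst) (prim_toNat_neg.comp Primrec.fst))
      (Primrec.pair (prim_toNat.comp Primrec.snd) (prim_toNat_neg.comp Primrec.snd))
  refine (prim_natSub.comp (hP.comp hx) (hN.comp hx)).of_eq fun a => ?_
  exact (h a.1 a.2).symm

theorem prim_int_add : Primrec₂ (fun x y : ℤ => x + y) := by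
  refine prim_int_of_parts _ (fun a b c d => a + c) (fun a b c d => b + d) ?_ ?_ ?_
  · exact Primrec.nat_add.comp (Primrec.fst.comp Primrec.fst) (Primrec.fst.comp Primrec.snd)
  · exact Primrec.nat_add.comp (Primrec.snd.comp Primrec.fst) (Primrec.snd.comp Primrec.snd)
  · intro x y; push_cast; omega

theorem prim_int_mul : Primrec₂ (fun x y : ℤ => x * y) := by
  refine prim_int_of_parts _ (fun a b c d => a * c + b * d) (fun a b c d => a * d + b * c) ?_ ?_ ?_
  · exact Primrec.nat_add.comp
      (Primrec.nat_mul.comp (Primrec.fst.comp Primrec.fst) (Primrec.fst.comp Primrec.snd))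
      (Primrec.nat_mul.comp (Primrec.snd.comp Primrec.fst) (Primrec.snd.comp Primrec.snd))
  · exact Primrec.nat_add.comp
      (Primrec.nat_mul.comp (Primrec.fst.comp Primrec.fst) (Primrec.snd.comp Primrec.snd))
      (Primrec.nat_mul.comp (Primrec.snd.comp Primrec.fst) (Primrec.fst.comp Primrec.snd))
  · intro x y
    push_cast
    have hx : x = (x.toNat : ℤ) - ((-x).toNat : ℤ) := by omega
    have hy : y = (y.toNat : ℤ) - ((-y).toNat : ℤ) := by omega
    generalize (x.toNat : ℤ) = a at *
    generalize ((-x).toNat : ℤ) = b at *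
    generalize (y.toNat : ℤ) = c at *
    generalize ((-y).toNat : ℤ) = d at *
    rw [hx, hy]
    ring

end Prim

open Prim

variable {t D : ℕ}

/-- entries of the matrices are computable -/
theorem comp_Mx (C : ℕ → ℤ) (hC : Computable C) (c : ℕ → I t D → ℤ)
    (hc : ∀ e, Computable fun a => c a e) (g : Letter t) (p q : J t D) :
    Computable fun a => Mx (C a) (c a) g p q := by
  have h0 : Computable fun _ : ℕ => (0 : ℤ) := Computable.const 0
  have h1 : Computable fun _ : ℕ => (1 : ℤ) := Computable.const 1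
  cases g with
  | S =>
    by_cases h : p = q
    · simpa [Mx, h] using hC
    · simpa [Mx, h] using h0
  | Zt b =>
    rcases p with i | e | u <;> rcases q with j | e' | u'
    case inl.inl => exact Computable.const (zM b i j)
    case inr.inr.inr.inr => exact hC
    all_goals exact h0
  | En l =>
    rcases p with i | e | u <;> rcases q with j | e' | u'
    case inr.inl.inl =>
      exact Computable.const (if e = 0 then (if j = l then 1 else 0) else 0)
    case inr.inr.inr.inr => exact hC
    all_goals exact h0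
  | Mv i =>
    rcases p with i' | e | u <;> rcases q with j | e' | u'
    case inr.inl.inr.inl => exact Computable.const (shM i e e')
    case inr.inr.inr.inr => exact hC
    all_goals exact h0
  | Ex j =>
    rcases p with i | e | u <;> rcases q with j' | e' | u'
    case inl.inr.inl => exact Computable.const (if i = j then (if e' = 0 then 1 else 0) else 0)
    case inr.inr.inr.inl => exact hc e'
    case inr.inr.inr.inr => exact hC
    all_goals exact h0
  | K l =>
    rcases p with i | e | u <;> rcases q with j | e' | u'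
    case inr.inr.inl =>
      by_cases h : j = l
      · simpa [Mx, h] using hC
      · simpa [Mx, h] using h0
    case inr.inr.inr.inr => exact hC
    all_goals exact h0
  | O =>
    rcases p with i | e | u <;> rcases q with j | e' | u'
    case inr.inr.inr.inr => exact hC
    all_goals exact h0

theorem comp_map {α β : Type} [Primcodable α] [Primcodable β] {γ : Type} (L : List γ)
    (F : γ → α → β) (hF : ∀ g, Computable (F g)) : Computable fun a => L.map fun g => F g a := by
  induction L with
  | nil => exact Computable.const []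
  | cons g L ih => exact Computable.list_cons.comp (hF g) ih

/-- the rows of the matrix of a letter -/
noncomputable def rows (C : ℤ) (c : I t D → ℤ) (g : Letter t) : List (List (ℤ × ℤ)) :=
  List.ofFn fun i => List.ofFn fun j =>
    (Mx C c g ((eqv t D).symm i) ((eqv t D).symm j), (1 : ℤ))

/-- the instance -/
noncomputable def inst (C : ℤ) (c : I t D → ℤ) : Instance :=
  (dm t D, (spL t).toList.map (rows C c))

theorem comp_inst (C : ℕ → ℤ) (hC : Computable C) (c : ℕ → I t D → ℤ)
    (hc : ∀ e, Computable fun a => c a e) : Computable fun a => inst (C a) (c a) := by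
  refine Computable.pair (Computable.const _) ?_
  refine comp_map _ _ fun g => ?_
  refine Computable.list_ofFn fun i => ?_
  refine Computable.list_ofFn fun j => ?_
  exact Computable.pair (comp_Mx C hC c hc g _ _) (Computable.const 1)

theorem getD_ofFn {α : Type} {n : ℕ} (f : Fin n → α) (i : Fin n) (d : α) :
    (List.ofFn f).getD i d = f i := by
  rw [List.getD_eq_getElem _ _ (by rw [List.length_ofFn]; exact i.2), List.getElem_ofFn]

theorem mat_rows (C : ℤ) (c : I t D → ℤ) (g : Letter t) :
    mat (dm t D) (rows C c g) = mtx C c g := by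
  ext i j
  unfold mat mtx rows
  simp only [Matrix.of_apply]
  rw [getD_ofFn, getD_ofFn]
  simp only [Int.cast_one, div_one]

theorem inst_mats (C : ℤ) (c : I t D → ℤ) : (inst C c).mats = Set.range (mtx C c) := by
  ext T
  constructor
  · rintro ⟨M, hM, rfl⟩
    obtain ⟨g, _, rfl⟩ := List.mem_map.1 hM
    exact ⟨g, (mat_rows C c g).symm⟩
  · rintro ⟨g, rfl⟩
    exact ⟨rows C c g, List.mem_map.2 ⟨g, Finset.mem_toList.2 (mem_spL g), rfl⟩,
      (mat_rows C c g).symm⟩

theorem inst_valid (C : ℤ) (c : I t D → ℤ) : (inst C c).Valid := by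
  refine ⟨?_, ?_, ?_⟩
  · show 1 ≤ Fintype.card (J t D)
    rw [Nat.one_le_iff_ne_zero]
    have : Nonempty (J t D) := ⟨.inl 0⟩
    exact Fintype.card_ne_zero
  · show (spL t).toList.map (rows C c) ≠ []
    intro h
    rw [List.map_eq_nil_iff] at h
    have := Finset.mem_toList.2 (mem_spL (.S : Letter t))
    rw [h] at this
    simp at this
  · intro M hM
    obtain ⟨g, _, rfl⟩ := List.mem_map.1 hM
    refine ⟨by unfold rows; rw [List.length_ofFn]; rfl, ?_⟩
    intro r hr
    unfold rows at hr
    rw [List.mem_ofFn] at hr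
    obtain ⟨i, rfl⟩ := hr
    refine ⟨by rw [List.length_ofFn]; rfl, ?_⟩
    intro e he
    rw [List.mem_ofFn] at he
    obtain ⟨j, rfl⟩ := he
    simp

theorem inst_integral (C : ℤ) (c : I t D → ℤ) : (inst C c).Integral := by
  intro M hM r hr e he
  obtain ⟨g, _, rfl⟩ := List.mem_map.1 hM
  unfold rows at hr
  rw [List.mem_ofFn] at hr
  obtain ⟨i, rfl⟩ := hr
  rw [List.mem_ofFn] at he
  obtain ⟨j, rfl⟩ := he
  rfl

/-- the reduction for one recursively enumerable set -/
theorem reduction (W : ℕ → Prop) (hW : REPred W) : ∃ n m : ℕ, ∃ f : ℕ → Instance,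
    Computable f ∧ ∀ a, (f a).Valid ∧ (f a).Integral ∧ (f a).1 = n ∧ (f a).2.length = m ∧
      (W a → PolyGrowth (f a).mats) ∧
      (¬ W a → ∃ v : Fin (f a).1 → ℝ, ∀ k, 2 ^ (k - 1) ≤ vertices (f a).mats v k) := by
  obtain ⟨t, c0, c1, c2, hc⟩ := exists_eqn W hW
  obtain ⟨B, ρ, hB⟩ := exists_good t c0 c1 c2
  let C : ℕ → ℤ := fun a => B * (a + 1) ^ 2
  let c : ℕ → I t 4 → ℤ := fun a => c0 + ((a : ℤ) • c1 + (a : ℤ) ^ 2 • c2)
  have hCc : Computable C := by
    have h1 : Primrec fun a : ℕ => ((B * ((a + 1) * (a + 1)) : ℕ) : ℤ) :=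
      prim_natCast.comp (Primrec.nat_mul.comp (Primrec.const B)
        (Primrec.nat_mul.comp Primrec.succ Primrec.succ))
    refine (h1.of_eq fun a => ?_).to_comp
    simp only [C]
    push_cast
    ring
  have hcc : ∀ e, Computable fun a => c a e := by
    intro e
    have h2 : Primrec fun a : ℕ => (a : ℤ) * (a : ℤ) :=
      prim_int_mul.comp prim_natCast prim_natCast
    have h1 : Primrec fun a : ℕ => c0 e + ((a : ℤ) * c1 e + ((a : ℤ) * (a : ℤ)) * c2 e) :=
      prim_int_add.comp (Primrec.const _) (prim_int_add.comp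
        (prim_int_mul.comp prim_natCast (Primrec.const _))
        (prim_int_mul.comp h2 (Primrec.const _)))
    refine (h1.of_eq fun a => ?_).to_comp
    simp [c, sq]
  refine ⟨dm t 4, ((spL t).toList).length, fun a => inst (C a) (c a), comp_inst C hCc c hcc,
    fun a => ⟨inst_valid _ _, inst_integral _ _, rfl, ?_, ?_, ?_⟩⟩
  · simp [inst]
  · intro hWa
    obtain ⟨n, hn⟩ := (hc a).2.1 hWa
    refine poly_of_zero (C := C a) (c := c a) (hB a) (fun n => ?_) n hn _ (inst_mats _ _)
    obtain ⟨p, hp, hpe⟩ := (hc a).1 n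
    show 0 ≤ dc (c0 + ((a : ℤ) • c1 + (a : ℤ) ^ 2 • c2)) (ev n)
    rw [hpe]
    exact_mod_cast hp
  · intro hWa
    have hC1 : 1 ≤ C a := by
      have := (hB a).h26
      have h2 : ((1 : ℤ) : ℝ) ≤ ((B * (a + 1) ^ 2 : ℤ) : ℝ) := by
        rw [Int.cast_one]
        linarith
      exact Int.cast_le.1 h2
    refine ⟨phi (a0 : V t 4), fun k => exp_of_ne (C := C a) (c := c a) hC1 (fun n => ?_) _
      (inst_mats _ _) k⟩
    obtain ⟨p, hp, hpe⟩ := (hc a).1 n
    show 1 ≤ dc (c0 + ((a : ℤ) • c1 + (a : ℤ) ^ 2 • c2)) (ev n)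
    have hne : p ≠ 0 := by
      rintro rfl
      exact hWa ((hc a).2.2 ⟨n, by rw [hpe]; simp⟩)
    rw [hpe]
    have : 1 ≤ p := by omega
    exact_mod_cast this

end Pool.Agent.N574.PV
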