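import Mathlib

/-! Polynomial vertex growth: the linear maps of the construction. -/

set_option autoImplicit false

namespace Pool.Agent.N574.PV

open Finset

/-- exponent vectors -/
abbrev I (t D : ℕ) : Type := Fin t → Fin (D + 1)

/-- the state space -/
abbrev V (t D : ℕ) : Type := (Fin 3 → ℝ) × (I t D → ℝ) × ℝ

/-- values of the monomials -/
def ev {t D : ℕ} (n : Fin t → ℕ) : I t D → ℝ := fun e => ∏ i, (n i : ℝ) ^ (e i : ℕ)

/-- the shift of the variable `i` -/
def shM {t D : ℕ} (i : Fin t) : Matrix (I t D) (I t D) ℤ :=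
  Matrix.of fun e e' => if (∀ j, j ≠ i → e j = e' j) then ((e i : ℕ).choose (e' i : ℕ) : ℤ) else 0

/-- `s ↦ 2 s` and `s ↦ 2 s + 1` on the points `(1, s, s ^ 2)` -/
def zM (b : Bool) : Matrix (Fin 3) (Fin 3) ℤ :=
  bif b then !![1, 0, 0; 1, 2, 0; 1, 4, 4] else !![1, 0, 0; 0, 2, 0; 0, 0, 4]

/-- the letters -/
inductive Letter (t : ℕ) : Type
  | S : Letter t
  | Zt (b : Bool) : Letter t
  | En (l : Fin 3) : Letter t
  | Mv (i : Fin t) : Letter t
  | Ex (j : Fin 3) : Letter t
  | K (l : Fin 3) : Letter t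
  | O : Letter t
  deriving DecidableEq

variable {t D : ℕ}

/-- the part of a map that multiplies the last coordinate by `C` and is `0` elsewhere -/
def actO (C : ℝ) : V t D →ₗ[ℝ] V t D where
  toFun v := (0, 0, C * v.2.2)
  map_add' v w := by ext <;> simp [mul_add]
  map_smul' r v := by ext <;> simp; ring

def actS (C : ℝ) : V t D →ₗ[ℝ] V t D where
  toFun v := C • v
  map_add' v w := smul_add _ _ _
  map_smul' r v := smul_comm _ _ _

def actZ (C : ℝ) (b : Bool) : V t D →ₗ[ℝ] V t D where
  toFun v := (((zM b).map (Int.cast : ℤ → ℝ)).mulVec v.1, 0, C * v.2.2)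
  map_add' v w := by
    refine Prod.ext ?_ (Prod.ext ?_ ?_)
    · simp [Matrix.mulVec_add]
    · simp
    · simp [mul_add]
  map_smul' r v := by
    refine Prod.ext ?_ (Prod.ext ?_ ?_)
    · simp [Matrix.mulVec_smul]
    · simp
    · simp; ring

def actEn (C : ℝ) (l : Fin 3) : V t D →ₗ[ℝ] V t D where
  toFun v := (0, v.1 l • ev (fun _ => 0), C * v.2.2)
  map_add' v w := by
    refine Prod.ext ?_ (Prod.ext ?_ ?_)
    · simp
    · simp [add_smul]
    · simp [mul_add]
  map_smul' r v := by
    refine Prod.ext ?_ (Prod.ext ?_ ?_)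
    · simp
    · simp [smul_smul]
    · simp; ring

def actM (C : ℝ) (i : Fin t) : V t D →ₗ[ℝ] V t D where
  toFun v := (0, ((shM i).map (Int.cast : ℤ → ℝ)).mulVec v.2.1, C * v.2.2)
  map_add' v w := by
    refine Prod.ext ?_ (Prod.ext ?_ ?_)
    · simp
    · simp [Matrix.mulVec_add]
    · simp [mul_add]
  map_smul' r v := by
    refine Prod.ext ?_ (Prod.ext ?_ ?_)
    · simp
    · simp [Matrix.mulVec_smul]
    · simp; ring

/-- the value of the linear form `c` -/
def dc (c : I t D → ℤ) (x : I t D → ℝ) : ℝ := ∑ e, (c e : ℝ) * x e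

theorem dc_add (c : I t D → ℤ) (x y : I t D → ℝ) : dc c (x + y) = dc c x + dc c y := by
  simp [dc, mul_add, Finset.sum_add_distrib]

theorem dc_smul (c : I t D → ℤ) (r : ℝ) (x : I t D → ℝ) : dc c (r • x) = r * dc c x := by
  simp only [dc, Pi.smul_apply, smul_eq_mul, Finset.mul_sum]
  exact Finset.sum_congr rfl fun e _ => by ring

def actEx (C : ℝ) (c : I t D → ℤ) (j : Fin 3) : V t D →ₗ[ℝ] V t D where
  toFun v := (Pi.single j (v.2.1 0), 0, C * v.2.2 + dc c v.2.1)
  map_add' v w := by
    refine Prod.ext ?_ (Prod.ext ?_ ?_)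
    · simp [Pi.single_add]
    · simp
    · simp [mul_add, dc_add]; ring
  map_smul' r v := by
    refine Prod.ext ?_ (Prod.ext ?_ ?_)
    · simp only [Prod.smul_snd, Prod.smul_fst, Pi.smul_apply, RingHom.id_apply]
      exact Pi.single_smul j r _
    · simp
    · simp [dc_smul]; ring

def actK (C : ℝ) (l : Fin 3) : V t D →ₗ[ℝ] V t D where
  toFun v := (0, 0, C * v.2.2 + C * v.1 l)
  map_add' v w := by
    refine Prod.ext ?_ (Prod.ext ?_ ?_)
    · simp
    · simp
    · simp; ring
  map_smul' r v := by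
    refine Prod.ext ?_ (Prod.ext ?_ ?_)
    · simp
    · simp
    · simp; ring

/-- the linear map of a letter -/
def act (C : ℝ) (c : I t D → ℤ) : Letter t → Module.End ℝ (V t D)
  | .S => actS C
  | .Zt b => actZ C b
  | .En l => actEn C l
  | .Mv i => actM C i
  | .Ex j => actEx C c j
  | .K l => actK C l
  | .O => actO C

/-- the linear map of a word; the head of the list is applied first -/
def act' (C : ℝ) (c : I t D → ℤ) : List (Letter t) → Module.End ℝ (V t D)
  | [] => 1
  | g :: w => act' C c w * act C c g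

section

variable (C : ℝ) (c : I t D → ℤ)

@[simp] theorem act'_nil : act' C c [] = 1 := rfl

@[simp] theorem act'_cons (g : Letter t) (w : List (Letter t)) :
    act' C c (g :: w) = act' C c w * act C c g := rfl

theorem act'_append (u w : List (Letter t)) : act' C c (u ++ w) = act' C c w * act' C c u := by
  induction u with
  | nil => simp
  | cons g u ih => simp [ih, mul_assoc]

theorem act_S (v : V t D) : act C c .S v = C • v := rfl
theorem act_Zt (b : Bool) (v : V t D) :
    act C c (.Zt b) v = (((zM b).map (Int.cast : ℤ → ℝ)).mulVec v.1, 0, C * v.2.2) := rfl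
theorem act_En (l : Fin 3) (v : V t D) :
    act C c (.En l) v = (0, v.1 l • ev (fun _ => 0), C * v.2.2) := rfl
theorem act_Mv (i : Fin t) (v : V t D) :
    act C c (.Mv i) v = (0, ((shM i).map (Int.cast : ℤ → ℝ)).mulVec v.2.1, C * v.2.2) := rfl
theorem act_Ex (j : Fin 3) (v : V t D) :
    act C c (.Ex j) v = (Pi.single j (v.2.1 0), 0, C * v.2.2 + dc c v.2.1) := rfl
theorem act_K (l : Fin 3) (v : V t D) :
    act C c (.K l) v = (0, 0, C * v.2.2 + C * v.1 l) := rfl
theorem act_O (v : V t D) : act C c .O v = (0, 0, C * v.2.2) := rfl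

end

/-! ### The shift matrices -/

theorem shM_mulVec (i : Fin t) (x : I t D → ℝ) (e : I t D) :
    ((shM i).map (Int.cast : ℤ → ℝ)).mulVec x e =
      ∑ b : Fin (D + 1), ((e i : ℕ).choose (b : ℕ) : ℝ) * x (Function.update e i b) := by
  classical
  unfold Matrix.mulVec dotProduct shM
  simp only [Matrix.map_apply, Matrix.of_apply]
  have h1 : ∀ e' : I t D, ((if (∀ j, j ≠ i → e j = e' j) then
      ((e i : ℕ).choose (e' i : ℕ) : ℤ) else 0 : ℤ) : ℝ) * x e' =
      if e' ∈ (Finset.univ.image fun b : Fin (D + 1) => Function.update e i b) then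
        ((e i : ℕ).choose (e' i : ℕ) : ℝ) * x e' else 0 := by
    intro e'
    by_cases h : ∀ j, j ≠ i → e j = e' j
    · have h2 : e' ∈ (Finset.univ.image fun b : Fin (D + 1) => Function.update e i b) := by
        rw [Finset.mem_image]
        refine ⟨e' i, Finset.mem_univ _, ?_⟩
        funext j
        by_cases hj : j = i
        · subst hj; simp
        · rw [Function.update_of_ne hj]; exact h j hj
      rw [if_pos h, if_pos h2]
      push_cast
      rfl
    · have h2 : e' ∉ (Finset.univ.image fun b : Fin (D + 1) => Function.update e i b) := by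
        rw [Finset.mem_image]
        rintro ⟨b, -, rfl⟩
        exact h fun j hj => by rw [Function.update_of_ne hj]
      rw [if_neg h, if_neg h2]
      simp
  rw [Finset.sum_congr rfl fun e' _ => h1 e', ← Finset.sum_filter, Finset.filter_mem_eq_inter,
    Finset.univ_inter, Finset.sum_image]
  · simp
  · intro a _ b _ hab
    have := congrFun hab i
    simpa using this

theorem ev_update (n : Fin t → ℕ) (i : Fin t) (e : I t D) (b : Fin (D + 1)) :
    ev n (Function.update e i b) =
      (n i : ℝ) ^ (b : ℕ) * ∏ j ∈ Finset.univ.erase i, (n j : ℝ) ^ (e j : ℕ) := by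
  classical
  unfold ev
  rw [← Finset.mul_prod_erase _ _ (Finset.mem_univ i)]
  congr 1
  · simp
  · refine Finset.prod_congr rfl fun j hj => ?_
    rw [Function.update_of_ne (Finset.ne_of_mem_erase hj)]

theorem shM_ev (n : Fin t → ℕ) (i : Fin t) :
    ((shM i).map (Int.cast : ℤ → ℝ)).mulVec (ev n : I t D → ℝ) =
      ev (Function.update n i (n i + 1)) := by
  classical
  funext e
  rw [shM_mulVec]
  have h1 : (ev (Function.update n i (n i + 1)) : I t D → ℝ) e =
      ((n i : ℝ) + 1) ^ (e i : ℕ) * ∏ j ∈ Finset.univ.erase i, (n j : ℝ) ^ (e j : ℕ) := by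
    unfold ev
    rw [← Finset.mul_prod_erase _ _ (Finset.mem_univ i)]
    congr 1
    · simp
    · refine Finset.prod_congr rfl fun j hj => ?_
      rw [Function.update_of_ne (Finset.ne_of_mem_erase hj)]
  rw [h1]
  have h2 : ∀ b : Fin (D + 1), ((e i : ℕ).choose (b : ℕ) : ℝ) * ev n (Function.update e i b) =
      ((n i : ℝ) ^ (b : ℕ) * ((e i : ℕ).choose (b : ℕ) : ℝ)) *
        ∏ j ∈ Finset.univ.erase i, (n j : ℝ) ^ (e j : ℕ) := by
    intro b
    rw [ev_update]
    ring
  rw [Finset.sum_congr rfl fun b _ => h2 b, ← Finset.sum_mul]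
  congr 1
  rw [Fin.sum_univ_eq_sum_range
    (fun b : ℕ => (n i : ℝ) ^ b * ((e i : ℕ).choose b : ℝ)) (D + 1)]
  rw [add_pow]
  have h3 : (e i : ℕ) + 1 ≤ D + 1 := (e i).2
  rw [← Finset.sum_subset (Finset.range_subset_range.2 h3)]
  · refine Finset.sum_congr rfl fun b _ => ?_
    simp
  · intro b _ hb
    rw [Finset.mem_range, not_lt] at hb
    rw [Nat.choose_eq_zero_of_lt (by omega)]
    simp

theorem ev_zero : (ev (fun _ => 0) : I t D → ℝ) = Pi.single 0 1 := by
  classical
  funext e
  unfold ev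
  by_cases h : e = 0
  · subst h
    simp
  · rw [Pi.single_eq_of_ne h]
    have : ∃ i, e i ≠ 0 := by
      by_contra h2
      push Not at h2
      exact h (funext h2)
    obtain ⟨i, hi⟩ := this
    refine Finset.prod_eq_zero (Finset.mem_univ i) ?_
    have : (e i : ℕ) ≠ 0 := fun h3 => hi (Fin.ext h3)
    simp [this]

theorem ev_at_zero (n : Fin t → ℕ) : (ev n : I t D → ℝ) 0 = 1 := by
  simp [ev]

theorem ev_nonneg (n : Fin t → ℕ) (e : I t D) : 0 ≤ ev n e :=
  Finset.prod_nonneg fun i _ => by positivity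

end Pool.Agent.N574.PV
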