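import Pool.Agent.N574.Up

/-! Polynomial vertex growth: words with many special letters are dominated. -/

set_option autoImplicit false

namespace Pool.Agent.N574.PV

open Finset

variable {t D : ℕ}

/-- forget the middle block -/
def prj : Module.End ℝ (V t D) where
  toFun v := (v.1, 0, v.2.2)
  map_add' v w := by ext <;> simp
  map_smul' r v := by ext <;> simp

theorem prj_apply (v : V t D) : prj v = (v.1, 0, v.2.2) := rfl

/-- letters that do not read the middle block -/
theorem act_mul_prj (C : ℝ) (c : I t D → ℤ) (g : Letter t) (hg : isSp g = true)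
    (h : ∀ j, g ≠ .Ex j) : act C c g * prj = act C c g := by
  apply LinearMap.ext
  intro v
  rw [Module.End.mul_apply, prj_apply]
  cases g with
  | S => simp [isSp] at hg
  | Zt b => rw [act_Zt, act_Zt]
  | En l => rw [act_En, act_En]
  | Mv i => simp [isSp] at hg
  | Ex j => exact absurd rfl (h j)
  | K l => rw [act_K, act_K]
  | O => rw [act_O, act_O]

/-- letters that do not write to the middle block -/
theorem prj_mul_act (C : ℝ) (c : I t D → ℤ) (g : Letter t) (hg : isSp g = true)
    (h : ∀ l, g ≠ .En l) : prj * act C c g = act C c g := by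
  apply LinearMap.ext
  intro v
  rw [Module.End.mul_apply, prj_apply]
  cases g with
  | S => simp [isSp] at hg
  | Zt b => rw [act_Zt]
  | En l => exact absurd rfl (h l)
  | Mv i => simp [isSp] at hg
  | Ex j => rw [act_Ex]
  | K l => rw [act_K]
  | O => rw [act_O]

theorem dec1 (C : ℝ) (c : I t D → ℤ) (s : ℕ) (w : List (Letter t))
    (hw : s + 1 ≤ w.countP isSp) :
    ∃ B U : List (Letter t), w = B ++ U ∧ B.countP isSp ≤ 1 ∧ s ≤ U.countP isSp ∧
      act' C c w = act' C c U * prj * act' C c B := by
  induction w with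
  | nil => simp at hw
  | cons g w ih =>
    rw [List.countP_cons] at hw
    by_cases hg : isSp g = true
    · rw [if_pos hg] at hw
      by_cases hE : ∀ j, g ≠ .Ex j
      · refine ⟨[], g :: w, rfl, by simp, ?_, ?_⟩
        · rw [List.countP_cons, if_pos hg]
          omega
        · rw [act'_cons, mul_assoc (act' C c w), act_mul_prj C c g hg hE]
          simp
      · have hE' : ∀ l, g ≠ .En l := by
          push Not at hE
          obtain ⟨j, rfl⟩ := hE
          intro l h
          cases h
        refine ⟨[g], w, rfl, by simp [hg], by omega, ?_⟩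
        rw [act'_cons, act'_cons, act'_nil, one_mul, mul_assoc (act' C c w),
          prj_mul_act C c g hg hE']
    · rw [if_neg hg] at hw
      obtain ⟨B, U, rfl, h1, h2, h3⟩ := ih (by omega)
      refine ⟨g :: B, U, rfl, ?_, h2, ?_⟩
      · rw [List.countP_cons, if_neg hg]
        omega
      · rw [act'_cons, h3, act'_cons]
        simp only [mul_assoc]

theorem dec2 (C : ℝ) (c : I t D → ℤ) (s : ℕ) (w : List (Letter t))
    (hw : s + 1 ≤ w.countP isSp) :
    ∃ U A : List (Letter t), w = U ++ A ∧ A.countP isSp ≤ 1 ∧ s ≤ U.countP isSp ∧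
      act' C c w = act' C c A * prj * act' C c U := by
  induction w using List.reverseRecOn with
  | nil => simp at hw
  | append_singleton w g ih =>
    rw [List.countP_append] at hw
    have h1 : List.countP isSp [g] = if isSp g = true then 1 else 0 := by
      rw [List.countP_cons]
      simp
    rw [h1] at hw
    by_cases hg : isSp g = true
    · rw [if_pos hg] at hw
      by_cases hE : ∀ l, g ≠ .En l
      · refine ⟨w ++ [g], [], by simp, by simp, ?_, ?_⟩
        · rw [List.countP_append, h1, if_pos hg]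
          omega
        · rw [act'_append, act'_cons, act'_nil, one_mul, one_mul, ← mul_assoc,
            prj_mul_act C c g hg hE]
      · have hE' : ∀ j, g ≠ .Ex j := by
          push Not at hE
          obtain ⟨l, rfl⟩ := hE
          intro j h
          cases h
        refine ⟨w, [g], rfl, by simp [hg], by omega, ?_⟩
        rw [act'_append, act'_cons, act'_nil, one_mul, act_mul_prj C c g hg hE']
    · rw [if_neg hg] at hw
      obtain ⟨U, A, rfl, h2, h3, h4⟩ := ih (by omega)
      refine ⟨U, A ++ [g], by simp, ?_, h3, ?_⟩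
      · rw [List.countP_append, h1, if_neg hg]
        omega
      · rw [act'_append, h4, act'_append]
        simp only [mul_assoc]

theorem dec (C : ℝ) (c : I t D → ℤ) (s : ℕ) (w : List (Letter t))
    (hw : s + 2 ≤ w.countP isSp) :
    ∃ B U A : List (Letter t), w = B ++ (U ++ A) ∧ B.countP isSp ≤ 1 ∧ A.countP isSp ≤ 1 ∧
      s ≤ U.countP isSp ∧
      act' C c w = act' C c A * (prj * act' C c U * prj) * act' C c B := by
  obtain ⟨B, U0, rfl, h1, h2, h3⟩ := dec1 C c (s + 1) w hw
  obtain ⟨U, A, rfl, h4, h5, h6⟩ := dec2 C c s U0 h2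
  refine ⟨B, U, A, rfl, h1, h4, h5, ?_⟩
  rw [h3, h6]
  simp only [mul_assoc]

/-! ### The dominating words -/

theorem act'_Mv (C : ℝ) (c : I t D → ℤ) (l : List (Fin t)) (σ : ℝ) (n : Fin t → ℕ) (r : ℝ) :
    act' C c (l.map Letter.Mv) ((0, σ • ev n, r) : V t D) =
      (0, σ • ev (fun i => n i + l.count i), C ^ l.length * r) := by
  induction l generalizing n r with
  | nil => simp
  | cons i l ih =>
    have h : act C c (.Mv i) ((0, σ • ev n, r) : V t D) =
        (0, σ • ev (Function.update n i (n i + 1)), C * r) := by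
      rw [act_Mv]
      simp only [Matrix.mulVec_smul, shM_ev]
    show act' C c (l.map Letter.Mv) (act C c (.Mv i) _) = _
    rw [h, ih]
    refine Prod.ext rfl (Prod.ext ?_ ?_)
    · simp only
      congr 2
      funext j
      by_cases hij : j = i
      · subst hij
        simp
        omega
      · rw [Function.update_of_ne hij, List.count_cons_of_ne (Ne.symm hij)]
    · simp only [List.length_cons, pow_succ]
      ring

theorem exists_list (n : Fin t → ℕ) : ∃ l : List (Fin t), ∀ i, l.count i = n i := by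
  classical
  refine ⟨(∑ i, n i • ({i} : Multiset (Fin t))).toList, fun i => ?_⟩
  rw [← Multiset.coe_count, Multiset.coe_toList, Multiset.count_sum']
  simp [Multiset.count_singleton]

theorem act'_S (C : ℝ) (c : I t D → ℤ) (m : ℕ) (v : V t D) :
    act' C c (List.replicate m .S) v = C ^ m • v := by
  induction m generalizing v with
  | zero => simp
  | succ m ih =>
    rw [List.replicate_succ]
    show act' C c (List.replicate m .S) (act C c .S v) = _
    rw [ih, act_S, smul_smul, pow_succ]

def dW (l : List (Fin t)) (m : ℕ) (j i : Fin 3) : List (Letter t) :=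
  .En i :: (l.map Letter.Mv ++ (.Ex j :: List.replicate (m - (l.length + 2)) .S))

def kW (m : ℕ) (i : Fin 3) : List (Letter t) := .K i :: List.replicate (m - 1) .S

def oW (m : ℕ) : List (Letter t) := .O :: List.replicate (m - 1) .S

theorem dW_act (C : ℝ) (c : I t D → ℤ) (l : List (Fin t))
    (hl : dc c (ev (fun i => l.count i) : I t D → ℝ) = 0) (m : ℕ) (hm : l.length + 2 ≤ m)
    (j i : Fin 3) (v : V t D) :
    act' C c (dW l m j i) v =
      (C ^ (m - (l.length + 2)) • Pi.single j (v.1 i), 0, C ^ m * v.2.2) := by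
  unfold dW
  rw [act'_cons, act'_append, act'_cons]
  simp only [Module.End.mul_apply]
  rw [act_En, act'_Mv, act_Ex, act'_S]
  have h1 : dc c (v.1 i • ev (fun k => 0 + l.count k) : I t D → ℝ) = 0 := by
    rw [dc_smul]
    simp only [zero_add]
    rw [hl, mul_zero]
  refine Prod.ext ?_ (Prod.ext ?_ ?_)
  · simp [ev_at_zero]
  · simp
  · simp only [Prod.smul_snd, smul_eq_mul, h1, add_zero]
    have : m = (m - (l.length + 2)) + (l.length + 2) := by omega
    conv_rhs => rw [this]
    rw [pow_add, pow_succ, pow_succ]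
    ring

theorem kW_act (C : ℝ) (c : I t D → ℤ) (m : ℕ) (hm : 1 ≤ m) (i : Fin 3) (v : V t D) :
    act' C c (kW m i) v = (0, 0, C ^ m * v.2.2 + C ^ m * v.1 i) := by
  unfold kW
  rw [act'_cons, Module.End.mul_apply, act_K, act'_S]
  refine Prod.ext ?_ (Prod.ext ?_ ?_)
  · simp
  · simp
  · simp only [Prod.smul_snd, smul_eq_mul]
    have : m = (m - 1) + 1 := by omega
    conv_rhs => rw [this]
    rw [pow_succ]
    ring

theorem oW_act (C : ℝ) (c : I t D → ℤ) (m : ℕ) (hm : 1 ≤ m) (v : V t D) :
    act' C c (oW m) v = (0, 0, C ^ m * v.2.2) := by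
  unfold oW
  rw [act'_cons, Module.End.mul_apply, act_O, act'_S]
  refine Prod.ext ?_ (Prod.ext ?_ ?_)
  · simp
  · simp
  · simp only [Prod.smul_snd, smul_eq_mul]
    have : m = (m - 1) + 1 := by omega
    conv_rhs => rw [this]
    rw [pow_succ]
    ring

theorem dW_length (l : List (Fin t)) (m : ℕ) (hm : l.length + 2 ≤ m) (j i : Fin 3) :
    (dW l m j i).length = m := by
  simp [dW]
  omega

theorem kW_length (m : ℕ) (hm : 1 ≤ m) (i : Fin 3) : (kW m i : List (Letter t)).length = m := by
  simp [kW]
  omega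

theorem oW_length (m : ℕ) (hm : 1 ≤ m) : (oW m : List (Letter t)).length = m := by
  simp [oW]
  omega

theorem dW_sp (l : List (Fin t)) (m : ℕ) (j i : Fin 3) :
    (dW l m j i).countP isSp ≤ 2 := by
  unfold dW
  rw [List.countP_cons, List.countP_append, List.countP_cons, List.countP_replicate]
  have : List.countP isSp (l.map Letter.Mv) = 0 := by
    rw [List.countP_eq_zero]
    intro g hg
    rw [List.mem_map] at hg
    obtain ⟨i, _, rfl⟩ := hg
    simp [isSp]
  rw [this]
  simp [isSp]

theorem kW_sp (m : ℕ) (i : Fin 3) : (kW m i : List (Letter t)).countP isSp ≤ 2 := by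
  unfold kW
  rw [List.countP_cons, List.countP_replicate]
  simp [isSp]

theorem oW_sp (m : ℕ) : (oW m : List (Letter t)).countP isSp ≤ 2 := by
  unfold oW
  rw [List.countP_cons, List.countP_replicate]
  simp [isSp]

/-- decomposition of the projected action of a word -/
theorem act'_prj (C : ℝ) (c : I t D → ℤ) (w : List (Letter t)) (v : V t D) :
    (prj * act' C c w * prj : Module.End ℝ (V t D)) v =
      ((fun j => ∑ l, v.1 l * (act' C c w (ez l)).1 j), 0,
        C ^ w.length * v.2.2 + ∑ l, v.1 l * (act' C c w (ez l)).2.2) := by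
  have h1 : prj v = ∑ l, v.1 l • (ez l : V t D) + (0, 0, v.2.2) := by
    rw [prj_apply]
    refine Prod.ext ?_ (Prod.ext ?_ ?_)
    · simp only [Prod.fst_add, Prod.fst_sum, Prod.smul_fst, add_zero, ez]
      funext i
      simp [Finset.sum_apply, Pi.single_apply]
    · simp [Prod.snd_sum, Prod.fst_sum, ez]
    · simp [Prod.snd_sum, ez]
  rw [Module.End.mul_apply, Module.End.mul_apply, h1, map_add, map_sum, act'_last, prj_apply]
  refine Prod.ext ?_ (Prod.ext rfl ?_)
  · simp only [Prod.fst_add, Prod.fst_sum, map_smul, Prod.smul_fst, add_zero]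
    funext j
    simp [Finset.sum_apply]
  · simp only [Prod.snd_add, Prod.snd_sum, map_smul, Prod.smul_snd, smul_eq_mul]
    ring


/-- actions of the words of length `m` with at most `s` special letters -/
def few (C : ℝ) (c : I t D → ℤ) (m s : ℕ) : Set (Module.End ℝ (V t D)) :=
  {T | ∃ d : List (Letter t), d.length = m ∧ d.countP isSp ≤ s ∧ T = act' C c d}

theorem dom {C ρ : ℝ} {c : I t D → ℤ} (hG : Good C c ρ)
    (hP : ∀ n : Fin t → ℕ, 0 ≤ dc c (ev n)) (l : List (Fin t))
    (hl : dc c (ev (fun i => l.count i) : I t D → ℝ) = 0) (R : ℕ)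
    (hR : C ^ (l.length + 2) ≤ 2 ^ R) (U : List (Letter t)) (hU : R + 1 ≤ ns U) :
    prj * act' C c U * prj ∈ convexHull ℝ (few C c U.length 2) := by
  classical
  set m := U.length with hm
  have hC26 := hG.h26
  have hC1 : 1 ≤ C := by linarith
  have hC0 : 0 < C := by linarith
  have hRτ : l.length + 2 ≤ R := by
    by_contra h
    push Not at h
    have h1 : (2 : ℝ) ^ R < 2 ^ (l.length + 2) := pow_lt_pow_right₀ (by norm_num) h
    have h2 : (2 : ℝ) ^ (l.length + 2) ≤ C ^ (l.length + 2) :=
      pow_le_pow_left₀ (by norm_num) (by linarith) _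
    linarith
  have hmR : R + 1 ≤ m := hU.trans (ns_le U)
  have hτm : l.length + 2 ≤ m := by omega
  have hm1 : 1 ≤ m := by omega
  have hez : ∀ i : Fin 3, Cone (ez i : V t D) := by
    intro i
    refine ⟨fun k => ?_, ⟨0, fun _ => 0, le_rfl, by simp [ez]⟩, le_rfl⟩
    by_cases hik : k = i
    · subst hik; simp [ez]
    · simp [ez, hik]
  have hcU : ∀ i : Fin 3, Cone (act' C c U (ez i)) := fun i =>
    cone_act' hC0.le hP U _ (hez i)
  let N : Fin 3 → Fin 3 → ℝ := fun j i => (act' C c U (ez i)).1 j
  let r : Fin 3 → ℝ := fun i => (act' C c U (ez i)).2.2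
  have hN : ∀ j i, 0 ≤ N j i := fun j i => (hcU i).1 j
  have hr : ∀ i, 0 ≤ r i := fun i => (hcU i).2.2
  let W : (Fin 3 × Fin 3) ⊕ (Fin 3 ⊕ Unit) → ℝ := fun q => match q with
    | .inl (j, i) => N j i / C ^ (m - (l.length + 2))
    | .inr (.inl i) => r i / C ^ m
    | .inr (.inr _) => 1 - (∑ p : Fin 3 × Fin 3, N p.1 p.2 / C ^ (m - (l.length + 2)) +
        ∑ i, r i / C ^ m)
  let Z : (Fin 3 × Fin 3) ⊕ (Fin 3 ⊕ Unit) → Module.End ℝ (V t D) := fun q => match q with
    | .inl (j, i) => act' C c (dW l m j i)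
    | .inr (.inl i) => act' C c (kW m i)
    | .inr (.inr _) => act' C c (oW m)
  have hCm : C ^ m = C ^ (l.length + 2) * C ^ (m - (l.length + 2)) := by
    rw [← pow_add]
    congr 1
    omega
  have hwt : ∑ p : Fin 3 × Fin 3, N p.1 p.2 / C ^ (m - (l.length + 2)) +
        ∑ i, r i / C ^ m ≤ 1 := by
    have h1 := wt_le hG hP (l.length + 2) R hR U hU
    have h2 : ∑ p : Fin 3 × Fin 3, N p.1 p.2 / C ^ (m - (l.length + 2)) +
        ∑ i, r i / C ^ m = wt C c (l.length + 2) U / C ^ m := by
      unfold wt
      rw [Finset.sum_add_distrib, add_div, Finset.sum_div, Finset.sum_div]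
      congr 1
      rw [Fintype.sum_prod_type_right]
      refine Finset.sum_congr rfl fun i _ => ?_
      rw [Finset.mul_sum, Finset.sum_div]
      refine Finset.sum_congr rfl fun j _ => ?_
      rw [hCm, mul_div_mul_left _ _ (pow_ne_zero _ hC0.ne')]
    rw [h2, div_le_one (pow_pos hC0 _)]
    exact h1
  have hsum : ∑ q, W q = 1 := by
    rw [Fintype.sum_sum_type, Fintype.sum_sum_type]
    simp only [W, Finset.univ_unique, Finset.sum_singleton]
    ring
  have hW : ∀ q, 0 ≤ W q := by
    rintro (⟨j, i⟩ | i | _)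
    · exact div_nonneg (hN j i) (pow_nonneg hC0.le _)
    · exact div_nonneg (hr i) (pow_nonneg hC0.le _)
    · exact sub_nonneg.2 hwt
  have hZ : ∀ q, Z q ∈ few C c m 2 := by
    rintro (⟨j, i⟩ | i | _)
    · exact ⟨_, dW_length l m hτm j i, dW_sp l m j i, rfl⟩
    · exact ⟨_, kW_length m hm1 i, kW_sp m i, rfl⟩
    · exact ⟨_, oW_length m hm1, oW_sp m, rfl⟩
  have hmem := (convex_convexHull ℝ (few C c m 2)).sum_mem (t := Finset.univ) (w := W) (z := Z)
    (fun q _ => hW q) hsum (fun q _ => subset_convexHull ℝ _ (hZ q))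
  have heq : ∑ q, W q • Z q = prj * act' C c U * prj := by
    apply LinearMap.ext
    intro v
    rw [act'_prj, LinearMap.sum_apply, Fintype.sum_sum_type, Fintype.sum_sum_type]
    simp only [LinearMap.smul_apply, Finset.univ_unique, Finset.sum_singleton]
    have e1 : ∀ p : Fin 3 × Fin 3, W (.inl p) • (Z (.inl p)) v =
        (N p.1 p.2 • Pi.single p.1 (v.1 p.2), 0,
          N p.1 p.2 / C ^ (m - (l.length + 2)) * (C ^ m * v.2.2)) := by
      rintro ⟨j, i⟩
      show (N j i / C ^ (m - (l.length + 2))) • act' C c (dW l m j i) v = _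
      rw [dW_act C c l hl m hτm]
      refine Prod.ext ?_ (Prod.ext ?_ ?_)
      · simp only [Prod.smul_fst, smul_smul]
        rw [div_mul_cancel₀ _ (pow_ne_zero _ hC0.ne')]
      · simp
      · simp
    have e2 : ∀ i : Fin 3, W (.inr (.inl i)) • (Z (.inr (.inl i))) v =
        (0, 0, r i / C ^ m * (C ^ m * v.2.2) + r i * v.1 i) := by
      intro i
      show (r i / C ^ m) • act' C c (kW m i) v = _
      rw [kW_act C c m hm1]
      refine Prod.ext ?_ (Prod.ext ?_ ?_)
      · simp
      · simp
      · simp only [Prod.smul_snd, smul_eq_mul]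
        rw [mul_add]
        congr 1
        rw [← mul_assoc, div_mul_cancel₀ _ (pow_ne_zero _ hC0.ne')]
    have e3 : W (.inr (.inr default)) • (Z (.inr (.inr default))) v =
        (0, 0, (1 - (∑ p : Fin 3 × Fin 3, N p.1 p.2 / C ^ (m - (l.length + 2)) +
        ∑ i, r i / C ^ m)) * (C ^ m * v.2.2)) := by
      show (1 - (∑ p : Fin 3 × Fin 3, N p.1 p.2 / C ^ (m - (l.length + 2)) +
        ∑ i, r i / C ^ m)) • act' C c (oW m) v = _
      rw [oW_act C c m hm1]
      refine Prod.ext ?_ (Prod.ext ?_ ?_)
      · simp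
      · simp
      · simp
    rw [Finset.sum_congr rfl fun p _ => e1 p, Finset.sum_congr rfl fun i _ => e2 i, e3]
    refine Prod.ext ?_ (Prod.ext ?_ ?_)
    · simp only [Prod.fst_add, Prod.fst_sum, Finset.sum_const_zero, add_zero]
      funext j
      rw [Finset.sum_apply, Fintype.sum_prod_type_right]
      refine Finset.sum_congr rfl fun i _ => ?_
      rw [Finset.sum_eq_single j]
      · simp [N, mul_comm]
      · intro j' _ hj'
        simp [Ne.symm hj']
      · simp
    · simp [Prod.snd_sum, Prod.fst_sum]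
    · simp only [Prod.snd_add, Prod.snd_sum, Finset.sum_add_distrib, ← Finset.sum_mul]
      have : ∑ i, r i * v.1 i = ∑ l, v.1 l * (act' C c U (ez l)).2.2 :=
        Finset.sum_congr rfl fun i _ => mul_comm _ _
      rw [← this]
      ring
  rw [heq] at hmem
  exact hmem

/-- every word is dominated by words with few special letters -/
theorem hull {C ρ : ℝ} {c : I t D → ℤ} (hG : Good C c ρ)
    (hP : ∀ n : Fin t → ℕ, 0 ≤ dc c (ev n)) (l : List (Fin t))
    (hl : dc c (ev (fun i => l.count i) : I t D → ℝ) = 0) (R : ℕ)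
    (hR : C ^ (l.length + 2) ≤ 2 ^ R) (w : List (Letter t)) :
    act' C c w ∈ convexHull ℝ (few C c w.length (R + 2)) := by
  by_cases hw : w.countP isSp ≤ R + 2
  · exact subset_convexHull ℝ _ ⟨w, rfl, hw, rfl⟩
  · have hR2 : 2 ≤ R := by
      by_contra h
      push Not at h
      have hC26 := hG.h26
      have h1 : (2 : ℝ) ^ R ≤ 2 ^ 1 := pow_le_pow_right₀ (by norm_num) (by omega)
      have h2 : C ^ 1 ≤ C ^ (l.length + 2) := pow_le_pow_right₀ (by linarith) (by omega)
      simp only [pow_one] at h1 h2
      linarith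
    obtain ⟨B, U, A, rfl, h1, h2, h3, h4⟩ := dec C c (R + 1) w (by omega)
    have h5 := dom hG hP l hl R hR U (h3.trans (sp_le_ns U))
    let F : Module.End ℝ (V t D) →ₗ[ℝ] Module.End ℝ (V t D) :=
      (LinearMap.mulLeft ℝ (act' C c A)).comp (LinearMap.mulRight ℝ (act' C c B))
    have hF : ∀ T, F T = act' C c A * T * act' C c B := by
      intro T
      simp [F, mul_assoc]
    rw [h4, ← hF]
    have h6 : F (prj * act' C c U * prj) ∈ F '' (convexHull ℝ (few C c U.length 2)) :=
      ⟨_, h5, rfl⟩
    rw [LinearMap.image_convexHull] at h6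
    refine convexHull_mono ?_ h6
    rintro _ ⟨_, ⟨d, hd1, hd2, rfl⟩, rfl⟩
    refine ⟨B ++ (d ++ A), ?_, ?_, ?_⟩
    · simp [hd1]
    · rw [List.countP_append, List.countP_append]
      omega
    · rw [hF, act'_append, act'_append]

end Pool.Agent.N574.PV
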