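import Pool.Agent.N988.EC.Stm
import Pool.Agent.N988.EZ.Main
import Pool.Agent.N700.EZ_IO0

/-!
# Project EC (helper988), statement C1: uniform exponential bound for no dominance

The computation is the one of `Pool.Agent.N700.EZ.ae_all`.
-/

set_option autoImplicit false

open MeasureTheory Set Filter ProbabilityTheory
open scoped ENNReal Topology

namespace Pool.Agent.N574.EC

open Pool.Agent.N988.EA Pool.Agent.N988.EZ Pool.Agent.N988.EC Pool.Agent.N80.EA Pool.Agent.N78.EA
open Pool.Agent.N700.EZ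

/-- the constant -/
noncomputable def cE (b : ℕ) : ℝ≥0∞ := (4 : ℝ≥0∞)⁻¹ ^ b * (4 : ℝ≥0∞)⁻¹ ^ b

theorem cE_le (b : ℕ) : cE b ≤ 1 := by
  have h4le : (4 : ℝ≥0∞)⁻¹ ≤ 1 := ENNReal.inv_le_one.2 (by norm_num)
  exact mul_le_one' (pow_le_one' h4le b) (pow_le_one' h4le b)

theorem cE_top (b : ℕ) : cE b ≠ ⊤ := ne_top_of_le_ne_top ENNReal.one_ne_top (cE_le b)

theorem cE_ne (b : ℕ) : cE b ≠ 0 := by
  have h3 : (4 : ℝ≥0∞)⁻¹ ≠ 0 := ENNReal.inv_ne_zero.2 (by norm_num)
  exact mul_ne_zero (pow_ne_zero _ h3) (pow_ne_zero _ h3)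

theorem c_pos (b : ℕ) : 0 < (cE b).toReal := ENNReal.toReal_pos (cE_ne b) (cE_top b)

theorem c_le (b : ℕ) : (cE b).toReal ≤ 1 := by
  have := ENNReal.toReal_mono ENNReal.one_ne_top (cE_le b)
  simpa using this

theorem bound (μ : Measure ℝ) [IsProbabilityMeasure μ] {b : ℕ} (p : ℕ → Fin b × Bool)
    (h2 : Pool.Agent.N988.EA.S_MARG) (hb : 2 ≤ b) (hs : μ.map (fun x => -x) = μ) (j : ℕ) :
    (Measure.infinitePi fun _ : EdgeInf b p => μ).real
      {J | ∀ m, m ≤ j → |own0 p J m| < |sib0 p J m|} ≤ (1 - (cE b).toReal) ^ j := by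
  set Q := Measure.infinitePi fun _ : EdgeInf b p => μ with hQ
  let A : ℕ → Set (EdgeInf b p → ℝ) :=
    fun j => {J | ∀ m, m ≤ j → |own0 p J m| < |sib0 p J m|}
  have hA : ∀ j, MeasurableSet (A j) := by
    intro j
    have e1 : A j = ⋂ m, ⋂ (_ : m ≤ j),
        {J : EdgeInf b p → ℝ | |own0 p J m| < |sib0 p J m|} := by
      ext J
      simp [A]
    rw [e1]
    refine MeasurableSet.iInter fun m => MeasurableSet.iInter fun _ => ?_
    exact measurableSet_lt (meas_own0 p h2 m).abs (mp_sib0 μ p h2 m).measurable.abs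
  have hA' : ∀ j, Dep (Past p j) (A j) := by
    intro j J J' h
    have e1 : ∀ m, m ≤ j → own0 p J m = own0 p J' m := by
      intro m hm
      unfold own0
      rw [cpl_congr h m hm]
    have e2 : ∀ m, m ≤ j → sib0 p J m = sib0 p J' m := by
      intro m hm
      unfold sib0
      rw [cpl_branch h m hm (!(p m).2)]
    change (∀ m, m ≤ j → |own0 p J m| < |sib0 p J m|) ↔
      ∀ m, m ≤ j → |own0 p J' m| < |sib0 p J' m|
    refine forall_congr' fun m => ?_
    constructor
    · intro h3 h4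
      rw [← e1 m h4, ← e2 m h4]
      exact h3 h4
    · intro h3 h4
      rw [e1 m h4, e2 m h4]
      exact h3 h4
  have hsucc : ∀ j, A (j + 1) =
      A j ∩ {J : EdgeInf b p → ℝ | |own0 p J (j + 1)| < |sib0 p J (j + 1)|} := by
    intro j
    ext J
    constructor
    · intro h
      exact ⟨fun m h4 => h m (by omega), h (j + 1) le_rfl⟩
    · rintro ⟨h3, h4⟩ m h6
      rcases Nat.lt_or_ge m (j + 1) with h7 | h7
      · exact h3 m (by omega)
      · have : m = j + 1 := by omega
        rw [this]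
        exact h4
  have hst : ∀ j, Q.real (A (j + 1)) ≤ (1 - (cE b).toReal) * Q.real (A j) := by
    intro j
    have h3 := step μ p h2 hb hs j (A j) (hA j) (hA' j)
    rw [← hQ, ← hsucc j] at h3
    have h4 := ENNReal.toReal_mono (measure_ne_top _ _) h3
    change (Q (A (j + 1)) + cE b * Q (A j)).toReal ≤ (Q (A j)).toReal at h4
    rw [ENNReal.toReal_add (measure_ne_top _ _)
      (ENNReal.mul_ne_top (cE_top b) (measure_ne_top _ _)), ENNReal.toReal_mul] at h4
    change Q.real (A (j + 1)) + (cE b).toReal * Q.real (A j) ≤ Q.real (A j) at h4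
    linarith
  have hle : ∀ j, Q.real (A j) ≤ (1 - (cE b).toReal) ^ j := by
    intro j
    induction j with
    | zero =>
      rw [pow_zero]
      exact measureReal_le_one
    | succ j ih =>
      calc Q.real (A (j + 1)) ≤ (1 - (cE b).toReal) * Q.real (A j) := hst j
        _ ≤ (1 - (cE b).toReal) * (1 - (cE b).toReal) ^ j :=
          mul_le_mul_of_nonneg_left ih (by linarith [c_le b])
        _ = (1 - (cE b).toReal) ^ (j + 1) := by rw [pow_succ']
  exact hle j

theorem t_UNI : S_UNI := by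
  intro b hb
  refine ⟨1 - (cE b).toReal, by linarith [c_le b], by linarith [c_pos b], ?_⟩
  intro μ _ ha hs p j
  have hM : Pool.Agent.N988.EA.S_MARG := k_MARG
  have h3 : ∀ᵐ J ∂(Measure.infinitePi fun _ : EdgeInf b p => μ),
      ∀ n : ℕ, |sib0 p J n| ≠ |own0 p J n| := by
    rw [ae_all_iff]
    intro n
    refine no_tie μ p hM n fun x => ?_
    have h4 := (k_AT b (by omega) μ ha n).2.1 x
    rw [(mp_K0 μ b n).map_eq] at h4
    exact h4
  have h5 : (Measure.infinitePi fun _ : EdgeInf b p => μ)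
      {J | ∀ m, m ≤ j → |own0 p J m| ≤ |sib0 p J m|} ≤
      (Measure.infinitePi fun _ : EdgeInf b p => μ)
        {J | ∀ m, m ≤ j → |own0 p J m| < |sib0 p J m|} := by
    refine measure_mono_ae ?_
    filter_upwards [h3] with J hJ
    intro h6 m hm
    exact lt_of_le_of_ne (h6 m hm) (hJ m).symm
  refine h5.trans ?_
  rw [← ENNReal.ofReal_toReal (measure_ne_top _ _)]
  exact ENNReal.ofReal_le_ofReal (bound μ p hM hb hs j)

end Pool.Agent.N574.EC
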