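import Mathlib

/-! Polynomial vertex growth: definitions. -/

set_option autoImplicit false

namespace Pool.Agent.N574.Growth

/-- the states `T_{k-1} ⋯ T_0 a` with `T_i ∈ S` -/
def reach {n : ℕ} (S : Set (Matrix (Fin n) (Fin n) ℝ)) (a : Fin n → ℝ) : ℕ → Set (Fin n → ℝ)
  | 0 => {a}
  | k + 1 => {y | ∃ T ∈ S, ∃ x ∈ reach S a k, y = T.mulVec x}

/-- the number of extreme points of the convex hull of the states reachable in `k` steps -/
noncomputable def vertices {n : ℕ} (S : Set (Matrix (Fin n) (Fin n) ℝ)) (a : Fin n → ℝ)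
    (k : ℕ) : ℕ :=
  (Set.extremePoints ℝ (convexHull ℝ (reach S a k))).ncard

/-- polynomial vertex growth -/
def PolyGrowth {n : ℕ} (S : Set (Matrix (Fin n) (Fin n) ℝ)) : Prop :=
  ∃ α d : ℝ, 0 < α ∧ 0 < d ∧ ∃ k₀ : ℕ, 0 < k₀ ∧ ∀ k ≥ k₀, ∀ a : Fin n → ℝ,
    (vertices S a k : ℝ) ≤ α * (k : ℝ) ^ d

/-- an instance: the dimension and the list of the matrices; a matrix is the list of its rows
and the pair `(p, q)` stands for the entry `p / q` -/
abbrev Instance : Type := ℕ × List (List (List (ℤ × ℤ)))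

/-- the instance is well formed -/
def Instance.Valid (x : Instance) : Prop :=
  1 ≤ x.1 ∧ x.2 ≠ [] ∧ ∀ M ∈ x.2, M.length = x.1 ∧ ∀ r ∈ M, r.length = x.1 ∧ ∀ e ∈ r, e.2 ≠ 0

/-- all entries are integers -/
def Instance.Integral (x : Instance) : Prop := ∀ M ∈ x.2, ∀ r ∈ M, ∀ e ∈ r, e.2 = 1

/-- the matrix given by a list of rows -/
noncomputable def mat (n : ℕ) (M : List (List (ℤ × ℤ))) : Matrix (Fin n) (Fin n) ℝ :=
  Matrix.of fun i j =>
    ((((M.getD i []).getD j (0, 1)).1 : ℤ) : ℝ) / ((((M.getD i []).getD j (0, 1)).2 : ℤ) : ℝ)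

/-- the set of matrices of an instance -/
def Instance.mats (x : Instance) : Set (Matrix (Fin x.1) (Fin x.1) ℝ) :=
  {T | ∃ M ∈ x.2, T = mat x.1 M}

end Pool.Agent.N574.Growth
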