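import Pool.Agent.N574.Comp

/-! Polynomial vertex growth: the main statement. -/

set_option autoImplicit false

namespace Pool.Agent.N574.PV

open Pool.Agent.N574.Growth

theorem main : ∃ n m : ℕ,
    (∀ W : ℕ → Prop, REPred W → ∃ f : ℕ → Instance, Computable f ∧
      ∀ a, (f a).Valid ∧ (f a).Integral ∧ (f a).1 = n ∧ (f a).2.length = m ∧
        (W a ↔ PolyGrowth (f a).mats) ∧
        (¬ W a → ∃ v : Fin (f a).1 → ℝ, ∀ k, 2 ^ (k - 1) ≤ vertices (f a).mats v k)) ∧
    (¬ ∃ alg : Instance → Bool, Computable alg ∧ ∀ x : Instance, x.Valid → x.Integral →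
      x.1 = n → x.2.length = m → (alg x = true ↔ PolyGrowth x.mats)) ∧
    ¬ ComputablePred (fun x : Instance => x.Valid ∧ PolyGrowth x.mats) := by
  obtain ⟨n, m, f, hf, h⟩ := reduction Pool.Agent.R569.haltS Pool.Agent.R569.haltS_re
  have hiff : ∀ a, Pool.Agent.R569.haltS a ↔ PolyGrowth (f a).mats := by
    intro a
    obtain ⟨_, _, _, _, h1, h2⟩ := h a
    refine ⟨h1, fun hp => ?_⟩
    by_contra hn
    obtain ⟨v, hv⟩ := h2 hn
    exact not_poly _ v hv hp
  refine ⟨n, m, ?_, ?_, ?_⟩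
  · intro W hW
    obtain ⟨g, hg, hgW⟩ := Pool.Agent.R569.haltS_universal hW
    refine ⟨fun a => f (g a), hf.comp hg, fun a => ?_⟩
    obtain ⟨h1, h2, h3, h4, h5, h6⟩ := h (g a)
    refine ⟨h1, h2, h3, h4, ?_, ?_⟩
    · rw [hgW, hiff]
    · intro hn
      exact h6 fun hh => hn ((hgW a).2 hh)
  · rintro ⟨alg, halg, hx⟩
    apply Pool.Agent.R569.haltS_not_computable
    have h7 : Computable fun a => alg (f a) := halg.comp hf
    refine ComputablePred.computable_iff.2 ⟨_, h7, funext fun a => propext ?_⟩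
    obtain ⟨h1, h2, h3, h4, _⟩ := h a
    exact ((hx (f a) h1 h2 h3 h4).trans (hiff a).symm).symm
  · intro hc
    obtain ⟨alg, halg, he⟩ := ComputablePred.computable_iff.1 hc
    apply Pool.Agent.R569.haltS_not_computable
    have h7 : Computable fun a => alg (f a) := halg.comp hf
    refine ComputablePred.computable_iff.2 ⟨_, h7, funext fun a => propext ?_⟩
    have h8 : ((f a).Valid ∧ PolyGrowth (f a).mats) ↔ alg (f a) = true := by
      have := congrFun he (f a)
      exact iff_of_eq this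
    rw [hiff a]
    exact ⟨fun hh => h8.1 ⟨(h a).1, hh⟩, fun hh => (h8.2 hh).2⟩

end Pool.Agent.N574.PV
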