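import Pool.Agent.N574.Core

/-! Polynomial vertex growth: many extreme points if the equation has no solution. -/

set_option autoImplicit false

namespace Pool.Agent.N574.PV

open Finset

/-- states reachable in `k` steps -/
def reachV {E : Type} (L : Set (E → E)) (a : E) : ℕ → Set E
  | 0 => {a}
  | k + 1 => {y | ∃ T ∈ L, ∃ x ∈ reachV L a k, y = T x}

theorem extreme_of_functional {E : Type} [AddCommGroup E] [Module ℝ E] (S : Set E) (p : E)
    (hp : p ∈ S) (f : E →ₗ[ℝ] ℝ) (h : ∀ v ∈ S, v ≠ p → f v < f p) :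
    p ∈ Set.extremePoints ℝ (convexHull ℝ S) := by
  have hA : Convex ℝ ({x | f x < f p} ∪ {p} : Set E) := by
    rw [convex_iff_forall_pos]
    rintro x hx y hy a b ha hb hab
    have hxy : (x = p ∧ y = p) ∨ f (a • x + b • y) < f p := by
      rcases hx with hx | hx <;> rcases hy with hy | hy
      · right
        simp only [Set.mem_ofPred_eq] at hx hy
        simp only [map_add, map_smul, smul_eq_mul]
        have h1 : a * f x < a * f p := mul_lt_mul_of_pos_left hx ha
        have h2 : b * f y < b * f p := mul_lt_mul_of_pos_left hy hb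
        have h3 : a * f p + b * f p = f p := by rw [← add_mul, hab, one_mul]
        linarith
      · right
        simp only [Set.mem_ofPred_eq] at hx
        rw [Set.mem_singleton_iff] at hy
        subst hy
        simp only [map_add, map_smul, smul_eq_mul]
        have h1 : a * f x < a * f y := mul_lt_mul_of_pos_left hx ha
        have h3 : a * f y + b * f y = f y := by rw [← add_mul, hab, one_mul]
        linarith
      · right
        simp only [Set.mem_ofPred_eq] at hy
        rw [Set.mem_singleton_iff] at hx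
        subst hx
        simp only [map_add, map_smul, smul_eq_mul]
        have h2 : b * f y < b * f x := mul_lt_mul_of_pos_left hy hb
        have h3 : a * f x + b * f x = f x := by rw [← add_mul, hab, one_mul]
        linarith
      · left
        exact ⟨hx, hy⟩
    rcases hxy with ⟨rfl, rfl⟩ | h1
    · right
      rw [Set.mem_singleton_iff, ← add_smul, hab, one_smul]
    · left
      exact h1
  have hsub : convexHull ℝ S ⊆ ({x | f x < f p} ∪ {p} : Set E) := by
    refine convexHull_min ?_ hA
    intro v hv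
    by_cases hvp : v = p
    · right; exact hvp
    · left; exact h v hv hvp
  refine ⟨subset_convexHull ℝ S hp, ?_⟩
  intro x hx y hy hseg
  obtain ⟨a, b, ha, hb, hab, he⟩ := hseg
  have h1 : a * f x + b * f y = f p := by
    rw [← he]
    simp
  have h3 : a * f p + b * f p = f p := by rw [← add_mul, hab, one_mul]
  have hx' := hsub hx
  have hy' := hsub hy
  rcases hx' with hx' | hx'
  · exfalso
    simp only [Set.mem_ofPred_eq] at hx'
    have h4 : a * f x < a * f p := mul_lt_mul_of_pos_left hx' ha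
    have h5 : b * f y ≤ b * f p := by
      refine mul_le_mul_of_nonneg_left ?_ hb.le
      rcases hy' with hy' | hy'
      · exact le_of_lt hy'
      · rw [Set.mem_singleton_iff.1 hy']
    linarith
  · exact hx'

variable {t D : ℕ}

theorem mem_reach_iff (C : ℝ) (c : I t D → ℤ) (a : V t D) (k : ℕ) (y : V t D) :
    y ∈ reachV (Set.range fun g : Letter t => ⇑(act C c g)) a k ↔
      ∃ w : List (Letter t), w.length = k ∧ y = act' C c w a := by
  induction k generalizing y with
  | zero =>
    constructor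
    · intro h
      exact ⟨[], rfl, h⟩
    · rintro ⟨w, hw, rfl⟩
      rw [List.length_eq_zero_iff] at hw
      subst hw
      rfl
  | succ k ih =>
    constructor
    · rintro ⟨T, ⟨g, rfl⟩, x, hx, rfl⟩
      obtain ⟨w, hw, rfl⟩ := (ih x).1 hx
      refine ⟨w ++ [g], by simp [hw], ?_⟩
      rw [act'_append]
      simp
    · rintro ⟨w, hw, rfl⟩
      have hne : w ≠ [] := by
        rintro rfl
        simp at hw
      obtain ⟨w', g, rfl⟩ := List.eq_nil_or_concat w |>.resolve_left hne
      refine ⟨act C c g, ⟨g, rfl⟩, act' C c w' a, (ih _).2 ⟨w', ?_, rfl⟩, ?_⟩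
      · simpa using hw
      · rw [List.concat_eq_append, act'_append]
        simp

/-- the points of the parabola -/
def pv (s : ℕ) : Fin 3 → ℝ := ![1, s, s ^ 2]

theorem zM_pv (b : Bool) (s : ℕ) :
    ((zM b).map (Int.cast : ℤ → ℝ)).mulVec (pv s) = pv (2 * s + (bif b then 1 else 0)) := by
  cases b
  · funext i
    fin_cases i <;>
      simp [zM, pv, Matrix.mulVec, dotProduct, Fin.sum_univ_three, Matrix.map_apply] <;> ring
  · funext i
    fin_cases i <;>
      simp [zM, pv, Matrix.mulVec, dotProduct, Fin.sum_univ_three, Matrix.map_apply] <;> ring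

theorem zM_nonneg (b : Bool) (z : Fin 3 → ℝ) (hz : ∀ i, 0 ≤ z i) (i : Fin 3) :
    0 ≤ ((zM b).map (Int.cast : ℤ → ℝ)).mulVec z i := by
  have h0 := hz 0
  have h1 := hz 1
  have h2 := hz 2
  cases b <;> fin_cases i <;>
    simp [zM, Matrix.mulVec, dotProduct, Fin.sum_univ_three, Matrix.map_apply] <;> positivity

/-- the cone of all states met by words starting at the first block -/
def Cone (v : V t D) : Prop :=
  (∀ i, 0 ≤ v.1 i) ∧ (∃ (σ : ℝ) (n : Fin t → ℕ), 0 ≤ σ ∧ v.2.1 = σ • ev n) ∧ 0 ≤ v.2.2

theorem cone_act (C : ℝ) (hC : 0 ≤ C) (c : I t D → ℤ)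
    (hP : ∀ n : Fin t → ℕ, 0 ≤ dc c (ev n)) (g : Letter t) (v : V t D) (hv : Cone v) :
    Cone (act C c g v) := by
  obtain ⟨hz, ⟨σ, n, hσ, hx⟩, hl⟩ := hv
  have hx0 : (∃ (σ : ℝ) (n : Fin t → ℕ), 0 ≤ σ ∧ (0 : I t D → ℝ) = σ • ev n) :=
    ⟨0, fun _ => 0, le_rfl, by simp⟩
  have hCl : 0 ≤ C * v.2.2 := mul_nonneg hC hl
  cases g with
  | S =>
    rw [act_S]
    refine ⟨fun i => mul_nonneg hC (hz i), ⟨C * σ, n, mul_nonneg hC hσ, ?_⟩, hCl⟩
    rw [mul_smul, ← hx]
    rfl
  | Zt b =>
    rw [act_Zt]
    exact ⟨zM_nonneg b _ hz, hx0, hCl⟩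
  | En l =>
    rw [act_En]
    exact ⟨fun i => le_rfl, ⟨v.1 l, fun _ => 0, hz l, rfl⟩, hCl⟩
  | Mv i =>
    rw [act_Mv]
    refine ⟨fun i => le_rfl, ⟨σ, Function.update n i (n i + 1), hσ, ?_⟩, hCl⟩
    rw [← shM_ev, hx, Matrix.mulVec_smul]
  | Ex j =>
    rw [act_Ex]
    refine ⟨fun i => ?_, hx0, ?_⟩
    · rw [hx]
      by_cases hij : i = j
      · subst hij
        simp [ev_at_zero, hσ]
      · simp [hij]
    · have : 0 ≤ dc c v.2.1 := by
        rw [hx, dc_smul]
        exact mul_nonneg hσ (hP n)
      exact add_nonneg hCl this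
  | K l =>
    rw [act_K]
    exact ⟨fun i => le_rfl, hx0, add_nonneg hCl (mul_nonneg hC (hz l))⟩
  | O =>
    rw [act_O]
    exact ⟨fun i => le_rfl, hx0, hCl⟩

/-- the invariant of the words starting at `(1, 0, 0)` when the equation has no solution -/
def Inv (C : ℝ) (m : ℕ) (v : V t D) : Prop :=
  (1 ≤ v.2.2 ∧ Cone v) ∨
  (∃ q s : ℕ, q ≤ m ∧ s < 2 ^ (m - q) ∧ v = (C ^ q • pv s, 0, 0)) ∨
  (∃ (σ : ℝ) (n : Fin t → ℕ), (σ = 0 ∨ 1 ≤ σ) ∧ v = (0, σ • ev n, 0))

theorem pv_entry (s : ℕ) (l : Fin 3) : pv s l = 0 ∨ 1 ≤ pv s l := by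
  rcases Nat.eq_zero_or_pos s with rfl | hs
  · fin_cases l <;> simp [pv]
  · right
    have h1 : (1 : ℝ) ≤ s := by exact_mod_cast hs
    fin_cases l
    · simp [pv]
    · simpa [pv] using h1
    · simp only [pv]
      show (1 : ℝ) ≤ (s : ℝ) ^ 2
      nlinarith

theorem inv_act (C : ℝ) (hC : 1 ≤ C) (c : I t D → ℤ)
    (hP : ∀ n : Fin t → ℕ, 1 ≤ dc c (ev n)) (g : Letter t) (m : ℕ) (v : V t D)
    (hv : Inv C m v) : Inv C (m + 1) (act C c g v) := by
  have hC0 : 0 ≤ C := by linarith
  have hP0 : ∀ n : Fin t → ℕ, 0 ≤ dc c (ev n) := fun n => by linarith [hP n]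
  have hzero : Inv C (m + 1) ((0, 0, 0) : V t D) :=
    Or.inr (Or.inr ⟨0, fun _ => 0, Or.inl rfl, by simp⟩)
  rcases hv with ⟨hl, hc⟩ | ⟨q, s, hq, hs, rfl⟩ | ⟨σ, n, hσ, rfl⟩
  · left
    refine ⟨?_, cone_act C hC0 c hP0 g v hc⟩
    have hCl : 1 ≤ C * v.2.2 := by nlinarith
    have hc' := hc
    obtain ⟨hz, ⟨σ, n, hσ, hx⟩, _⟩ := hc'
    cases g with
    | S => rw [act_S]; exact hCl
    | Zt b => rw [act_Zt]; exact hCl
    | En l => rw [act_En]; exact hCl
    | Mv i => rw [act_Mv]; exact hCl
    | Ex j =>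
      rw [act_Ex]
      have : 0 ≤ dc c v.2.1 := by
        rw [hx, dc_smul]
        exact mul_nonneg hσ (hP0 n)
      show 1 ≤ C * v.2.2 + dc c v.2.1
      linarith
    | K l =>
      rw [act_K]
      have := mul_nonneg hC0 (hz l)
      show 1 ≤ C * v.2.2 + C * v.1 l
      linarith
    | O => rw [act_O]; exact hCl
  · cases g with
    | S =>
      right; left
      refine ⟨q + 1, s, by omega, by rwa [Nat.add_sub_add_right], ?_⟩
      rw [act_S, Prod.smul_mk, Prod.smul_mk, smul_zero, smul_zero, smul_smul, pow_succ']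
    | Zt b =>
      right; left
      refine ⟨q, 2 * s + (bif b then 1 else 0), by omega, ?_, ?_⟩
      · have h1 : m + 1 - q = (m - q) + 1 := by omega
        rw [h1, pow_succ]
        cases b <;> simp <;> omega
      · rw [act_Zt, Matrix.mulVec_smul, zM_pv]
        simp
    | En l =>
      right; right
      refine ⟨C ^ q * pv s l, fun _ => 0, ?_, ?_⟩
      · rcases pv_entry s l with h | h
        · left; rw [h, mul_zero]
        · right
          have := one_le_pow₀ hC (n := q)
          nlinarith
      · rw [act_En]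
        simp
    | Mv i =>
      rw [act_Mv]
      simpa using hzero
    | Ex j =>
      rw [act_Ex]
      simpa [dc] using hzero
    | K l =>
      rw [act_K]
      rcases pv_entry s l with h | h
      · simpa [h] using hzero
      · left
        have h1 := one_le_pow₀ hC (n := q)
        have h2 : 1 ≤ C * (C ^ q * pv s l) := by
          have : 1 ≤ C ^ q * pv s l := by nlinarith
          nlinarith
        refine ⟨by simpa using h2, fun i => le_rfl, ⟨0, fun _ => 0, le_rfl, by simp⟩, ?_⟩
        have : (0 : ℝ) ≤ C * (C ^ q * pv s l) := by linarith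
        simpa using this
    | O =>
      rw [act_O]
      simpa using hzero
  · cases g with
    | S =>
      right; right
      refine ⟨C * σ, n, ?_, ?_⟩
      · rcases hσ with h | h
        · left; rw [h, mul_zero]
        · right; nlinarith
      · rw [act_S, Prod.smul_mk, Prod.smul_mk, smul_zero, smul_zero, smul_smul]
    | Zt b =>
      rw [act_Zt]
      simpa using hzero
    | En l =>
      rw [act_En]
      simpa using hzero
    | Mv i =>
      right; right
      refine ⟨σ, Function.update n i (n i + 1), hσ, ?_⟩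
      rw [act_Mv]
      simp only [Matrix.mulVec_smul, shM_ev]
      simp
    | Ex j =>
      rw [act_Ex]
      rcases hσ with h | h
      · subst h
        simpa [dc] using hzero
      · left
        have h1 : 1 ≤ dc c (σ • ev n : I t D → ℝ) := by
          rw [dc_smul]
          have := hP n
          nlinarith
        refine ⟨by simpa using h1, fun i => ?_, ⟨0, fun _ => 0, le_rfl, by simp⟩, ?_⟩
        · by_cases hij : i = j
          · subst hij
            simp [ev_at_zero]
            linarith
          · simp [hij]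
        · have : (0 : ℝ) ≤ dc c (σ • ev n : I t D → ℝ) := by linarith
          simpa using this
    | K l =>
      rw [act_K]
      simpa using hzero
    | O =>
      rw [act_O]
      simpa using hzero

/-- the start vector -/
def a0 : V t D := (pv 0, 0, 0)

theorem inv_reach (C : ℝ) (hC : 1 ≤ C) (c : I t D → ℤ)
    (hP : ∀ n : Fin t → ℕ, 1 ≤ dc c (ev n)) (k : ℕ) (v : V t D)
    (hv : v ∈ reachV (Set.range fun g : Letter t => ⇑(act C c g)) a0 k) : Inv C k v := by
  induction k generalizing v with
  | zero =>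
    rw [Set.mem_singleton_iff.1 hv]
    right; left
    exact ⟨0, 0, le_rfl, by simp, by simp [a0]⟩
  | succ k ih =>
    obtain ⟨T, ⟨g, rfl⟩, x, hx, rfl⟩ := hv
    exact inv_act C hC c hP g k x (ih x hx)

theorem pv_reach (C : ℝ) (c : I t D → ℤ) (k s : ℕ) (hs : s < 2 ^ k) :
    ((pv s, 0, 0) : V t D) ∈ reachV (Set.range fun g : Letter t => ⇑(act C c g)) a0 k := by
  induction k generalizing s with
  | zero =>
    have : s = 0 := by simpa using hs
    subst this
    exact Set.mem_singleton _
  | succ k ih =>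
    refine ⟨act C c (.Zt (decide (s % 2 = 1))), ⟨_, rfl⟩, (pv (s / 2), 0, 0),
      ih (s / 2) (by rw [pow_succ] at hs; omega), ?_⟩
    rw [act_Zt, zM_pv]
    have : 2 * (s / 2) + (bif decide (s % 2 = 1) then 1 else 0) = s := by
      by_cases h : s % 2 = 1
      · simp [h]; omega
      · simp [h]; omega
    rw [this]
    simp

theorem reach_finite (C : ℝ) (c : I t D → ℤ) (a : V t D) (k : ℕ) :
    (reachV (Set.range fun g : Letter t => ⇑(act C c g)) a k).Finite := by
  classical
  have hfin : (Set.range fun g : Letter t => ⇑(act C c g)).Finite := by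
    have h1 : (Set.univ : Set (Letter t)).Finite := by
      have : (Set.univ : Set (Letter t)) = ({.S, .O} : Set (Letter t)) ∪ Set.range Letter.Zt ∪
          Set.range Letter.En ∪ Set.range Letter.Mv ∪ Set.range Letter.Ex ∪
          Set.range Letter.K := by
        ext g
        cases g <;> simp
      rw [this]
      refine ((((Set.Finite.union ?_ ?_).union ?_).union ?_).union ?_).union ?_
      · exact Set.toFinite _
      all_goals exact Set.finite_range _
    rw [← Set.image_univ]
    exact h1.image _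
  induction k with
  | zero => exact Set.finite_singleton _
  | succ k ih =>
    have : reachV (Set.range fun g : Letter t => ⇑(act C c g)) a (k + 1) =
        Set.image2 (fun T x => T x) (Set.range fun g : Letter t => ⇑(act C c g))
          (reachV (Set.range fun g : Letter t => ⇑(act C c g)) a k) := by
      ext y
      constructor
      · rintro ⟨T, hT, x, hx, rfl⟩
        exact ⟨T, hT, x, hx, rfl⟩
      · rintro ⟨T, hT, x, hx, rfl⟩
        exact ⟨T, hT, x, hx, rfl⟩
    rw [this]
    exact Set.Finite.image2 _ hfin ih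

theorem pv_extreme (C : ℝ) (hC : 1 ≤ C) (c : I t D → ℤ)
    (hP : ∀ n : Fin t → ℕ, 1 ≤ dc c (ev n)) (k s : ℕ) (hk : 1 ≤ k) (hs1 : 2 ^ (k - 1) ≤ s)
    (hs : s < 2 ^ k) :
    ((pv s, 0, 0) : V t D) ∈ Set.extremePoints ℝ (convexHull ℝ
      (reachV (Set.range fun g : Letter t => ⇑(act C c g)) a0 k)) := by
  classical
  set R := reachV (Set.range fun g : Letter t => ⇑(act C c g)) a0 k with hR
  have hfin : R.Finite := reach_finite C c a0 k
  let h0 : V t D → ℝ := fun v => -((s : ℝ) ^ 2 * v.1 0 - 2 * s * v.1 1 + v.1 2) + 1 / 2 * v.1 0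
  let Γ : ℝ := ∑ v ∈ hfin.toFinset, |h0 v|
  let f : V t D →ₗ[ℝ] ℝ :=
    { toFun := fun v => h0 v - Γ * v.2.2
      map_add' := fun v w => by simp [h0]; ring
      map_smul' := fun r v => by simp [h0]; ring }
  have hf : ∀ v, f v = h0 v - Γ * v.2.2 := fun v => rfl
  have hfp : f (pv s, 0, 0) = 1 / 2 := by
    rw [hf]
    simp [h0, pv]
    ring
  refine extreme_of_functional R _ (pv_reach C c k s hs) f ?_
  intro v hv hne
  rw [hfp, hf]
  rcases inv_reach C hC c hP k v hv with ⟨hl, hc⟩ | ⟨q, s', hq, hs', rfl⟩ | ⟨σ, n, hσ, rfl⟩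
  · have h1 : |h0 v| ≤ Γ :=
      Finset.single_le_sum (f := fun v => |h0 v|) (fun _ _ => abs_nonneg _)
        (hfin.mem_toFinset.2 hv)
    have h2 : h0 v ≤ |h0 v| := le_abs_self _
    have h3 : 0 ≤ Γ := le_trans (abs_nonneg _) h1
    have h4 : Γ ≤ Γ * v.2.2 := by nlinarith
    linarith
  · have hC' : 1 ≤ C ^ q := one_le_pow₀ hC
    have h1 : h0 ((C ^ q • pv s', 0, 0) : V t D) = C ^ q * (1 / 2 - ((s : ℝ) - s') ^ 2) := by
      simp [h0, pv]
      ring
    rw [h1]
    by_cases hss : s = s'
    · subst hss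
      have : q = 0 := by
        by_contra hq0
        have h2 : 2 ^ (k - q) ≤ 2 ^ (k - 1) := Nat.pow_le_pow_right (by norm_num) (by omega)
        omega
      subst this
      exact absurd (by simp) hne
    · have h2 : (1 : ℝ) ≤ ((s : ℝ) - s') ^ 2 := by
        have h3 : ((s : ℤ) - s') ≠ 0 := by omega
        have h4 : 1 ≤ ((s : ℤ) - s') ^ 2 := by
          have := sq_nonneg ((s : ℤ) - s')
          have := pow_ne_zero 2 h3
          omega
        exact_mod_cast h4
      have h5 : C ^ q * (1 / 2 - ((s : ℝ) - s') ^ 2) ≤ 0 :=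
        mul_nonpos_of_nonneg_of_nonpos (by linarith) (by linarith)
      simp
      linarith
  · have h1 : h0 ((0, σ • ev n, 0) : V t D) = 0 := by
      simp [h0]
    rw [h1]
    norm_num

theorem pv_injective : Function.Injective pv := by
  intro s s' h
  have h1 : (s : ℝ) = s' := congrFun h 1
  exact_mod_cast h1

theorem low (C : ℝ) (hC : 1 ≤ C) (c : I t D → ℤ)
    (hP : ∀ n : Fin t → ℕ, 1 ≤ dc c (ev n)) (k : ℕ) :
    2 ^ (k - 1) ≤ (Set.extremePoints ℝ (convexHull ℝ
      (reachV (Set.range fun g : Letter t => ⇑(act C c g)) (a0 : V t D) k))).ncard := by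
  classical
  set X := Set.extremePoints ℝ (convexHull ℝ
      (reachV (Set.range fun g : Letter t => ⇑(act C c g)) (a0 : V t D) k)) with hX
  have hfin : X.Finite := (reach_finite C c a0 k).subset extremePoints_convexHull_subset
  rcases Nat.eq_zero_or_pos k with rfl | hk
  · have : (a0 : V t D) ∈ X := by
      rw [hX]
      refine extreme_of_functional _ _ (Set.mem_singleton _) 0 ?_
      intro v hv hne
      exact absurd (Set.mem_singleton_iff.1 hv) hne
    have := (Set.ncard_pos hfin).2 ⟨_, this⟩
    simpa using Nat.succ_le_of_lt this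
  · have h1 : (fun s : ℕ => ((pv s, 0, 0) : V t D)) '' (Set.Ico (2 ^ (k - 1)) (2 ^ k)) ⊆ X := by
      rintro _ ⟨s, ⟨hs1, hs2⟩, rfl⟩
      exact pv_extreme C hC c hP k s hk hs1 hs2
    have h2 := Set.ncard_le_ncard h1 hfin
    rw [Set.ncard_image_of_injective] at h2
    · rw [Set.ncard_eq_toFinset_card', Set.toFinset_Ico, Nat.card_Ico] at h2
      have h3 : 2 ^ k = 2 * 2 ^ (k - 1) := by
        rw [← pow_succ']
        congr 1
        omega
      omega
    · intro s s' h
      exact pv_injective (congrArg Prod.fst h)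

end Pool.Agent.N574.PV
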