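import Pool.Agent.N574.Cnt
import Pool.Agent.N574.GrowthDefs

/-! Polynomial vertex growth: transport to matrices. -/

set_option autoImplicit false

namespace Pool.Agent.N574.PV

open Finset Pool.Agent.N574.Growth

variable {t D : ℕ}

/-- the index set of the coordinates -/
abbrev J (t D : ℕ) : Type := Fin 3 ⊕ (I t D ⊕ Unit)

/-- the entries of the matrices -/
def Mx (C : ℤ) (c : I t D → ℤ) : Letter t → J t D → J t D → ℤ
  | .S, p, q => if p = q then C else 0
  | .Zt b, .inl i, .inl j => zM b i j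
  | .Zt _, .inr (.inr _), .inr (.inr _) => C
  | .En l, .inr (.inl e), .inl j => if e = 0 then (if j = l then 1 else 0) else 0
  | .En _, .inr (.inr _), .inr (.inr _) => C
  | .Mv i, .inr (.inl e), .inr (.inl e') => shM i e e'
  | .Mv _, .inr (.inr _), .inr (.inr _) => C
  | .Ex j, .inl i, .inr (.inl e) => if i = j then (if e = 0 then 1 else 0) else 0
  | .Ex _, .inr (.inr _), .inr (.inl e) => c e
  | .Ex _, .inr (.inr _), .inr (.inr _) => C
  | .K l, .inr (.inr _), .inl j => if j = l then C else 0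
  | .K _, .inr (.inr _), .inr (.inr _) => C
  | .O, .inr (.inr _), .inr (.inr _) => C
  | _, _, _ => 0

/-- coordinates -/
def fl (v : V t D) : J t D → ℝ
  | .inl i => v.1 i
  | .inr (.inl e) => v.2.1 e
  | .inr (.inr _) => v.2.2

theorem fl_act (C : ℤ) (c : I t D → ℤ) (g : Letter t) (v : V t D) (p : J t D) :
    fl (act (C : ℝ) c g v) p = ∑ q, (Mx C c g p q : ℝ) * fl v q := by
  classical
  rw [Fintype.sum_sum_type, Fintype.sum_sum_type]
  simp only [Finset.univ_unique, Finset.sum_singleton]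
  cases g with
  | S =>
    rw [act_S]
    rcases p with i | e | u
    · simp [Mx, fl]
    · simp [Mx, fl]
    · cases u
      simp [Mx, fl]
  | Zt b =>
    rw [act_Zt]
    rcases p with i | e | u
    · simp [Mx, fl, Matrix.mulVec, dotProduct]
    · simp [Mx, fl]
    · simp [Mx, fl]
  | En l =>
    rw [act_En]
    rcases p with i | e | u
    · simp [Mx, fl]
    · by_cases he : e = 0
      · subst he
        simp [Mx, fl, ev_zero]
      · simp [Mx, fl, ev_zero, he]
    · simp [Mx, fl]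
  | Mv i =>
    rw [act_Mv]
    rcases p with i | e | u
    · simp [Mx, fl]
    · simp [Mx, fl, Matrix.mulVec, dotProduct]
    · simp [Mx, fl]
  | Ex j =>
    rw [act_Ex]
    rcases p with i | e | u
    · by_cases hij : i = j
      · subst hij
        simp [Mx, fl]
      · simp [Mx, fl, hij]
    · simp [Mx, fl]
    · simp [Mx, fl, dc]
      ring
  | K l =>
    rw [act_K]
    rcases p with i | e | u
    · simp [Mx, fl]
    · simp [Mx, fl]
    · simp [Mx, fl]
      ring
  | O =>
    rw [act_O]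
    rcases p with i | e | u
    · simp [Mx, fl]
    · simp [Mx, fl]
    · simp [Mx, fl]

/-- the dimension -/
abbrev dm (t D : ℕ) : ℕ := Fintype.card (J t D)

noncomputable def eqv (t D : ℕ) : J t D ≃ Fin (dm t D) := Fintype.equivFin _

/-- coordinates -/
noncomputable def phi : V t D ≃ₗ[ℝ] (Fin (dm t D) → ℝ) where
  toFun v := fun i => fl v ((eqv t D).symm i)
  invFun f := (fun i => f (eqv t D (.inl i)), fun e => f (eqv t D (.inr (.inl e))),
    f (eqv t D (.inr (.inr ()))))
  left_inv v := by simp [fl]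
  right_inv f := by
    funext i
    obtain ⟨p, rfl⟩ := (eqv t D).surjective i
    show fl _ ((eqv t D).symm ((eqv t D) p)) = _
    rw [Equiv.symm_apply_apply]
    rcases p with i | e | u <;> rfl
  map_add' v w := by
    funext i
    obtain ⟨p, rfl⟩ := (eqv t D).surjective i
    simp only [Equiv.symm_apply_apply, Pi.add_apply]
    rcases p with i | e | u <;> rfl
  map_smul' r v := by
    funext i
    obtain ⟨p, rfl⟩ := (eqv t D).surjective i
    simp only [Equiv.symm_apply_apply, Pi.smul_apply]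
    rcases p with i | e | u <;> rfl

theorem phi_apply (v : V t D) (i : Fin (dm t D)) : phi v i = fl v ((eqv t D).symm i) := rfl

/-- the matrices -/
noncomputable def mtx (C : ℤ) (c : I t D → ℤ) (g : Letter t) :
    Matrix (Fin (dm t D)) (Fin (dm t D)) ℝ :=
  Matrix.of fun i j => (Mx C c g ((eqv t D).symm i) ((eqv t D).symm j) : ℝ)

theorem phi_act (C : ℤ) (c : I t D → ℤ) (g : Letter t) (v : V t D) :
    phi (act (C : ℝ) c g v) = (mtx C c g).mulVec (phi v) := by
  funext i
  rw [phi_apply, fl_act]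
  unfold Matrix.mulVec dotProduct
  rw [← Equiv.sum_comp (eqv t D).symm]
  rfl

theorem reach_phi (C : ℤ) (c : I t D → ℤ) (S : Set (Matrix (Fin (dm t D)) (Fin (dm t D)) ℝ))
    (hS : S = Set.range (mtx C c)) (a : V t D) (k : ℕ) :
    reach S (phi a) k =
      phi '' (reachV (Set.range fun g : Letter t => ⇑(act (C : ℝ) c g)) a k) := by
  subst hS
  induction k with
  | zero =>
    show ({phi a} : Set _) = phi '' {a}
    rw [Set.image_singleton]
  | succ k ih =>
    ext y
    constructor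
    · rintro ⟨T, ⟨g, rfl⟩, x, hx, rfl⟩
      rw [ih] at hx
      obtain ⟨v, hv, rfl⟩ := hx
      refine ⟨act (C : ℝ) c g v, ⟨_, ⟨g, rfl⟩, v, hv, rfl⟩, phi_act C c g v⟩
    · rintro ⟨_, ⟨T, ⟨g, rfl⟩, v, hv, rfl⟩, rfl⟩
      refine ⟨mtx C c g, ⟨g, rfl⟩, phi v, ?_, phi_act C c g v⟩
      rw [ih]
      exact ⟨v, hv, rfl⟩

theorem vertices_phi (C : ℤ) (c : I t D → ℤ)
    (S : Set (Matrix (Fin (dm t D)) (Fin (dm t D)) ℝ)) (hS : S = Set.range (mtx C c))
    (a : V t D) (k : ℕ) :
    vertices S (phi a) k = (Set.extremePoints ℝ (convexHull ℝ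
      (reachV (Set.range fun g : Letter t => ⇑(act (C : ℝ) c g)) a k))).ncard := by
  unfold vertices
  rw [reach_phi C c S hS]
  have h1 : phi '' (convexHull ℝ
      (reachV (Set.range fun g : Letter t => ⇑(act (C : ℝ) c g)) a k)) =
      convexHull ℝ (phi '' (reachV (Set.range fun g : Letter t => ⇑(act (C : ℝ) c g)) a k)) := by
    have := LinearMap.image_convexHull (phi : V t D ≃ₗ[ℝ] (Fin (dm t D) → ℝ)).toLinearMap
      (reachV (Set.range fun g : Letter t => ⇑(act (C : ℝ) c g)) a k)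
    exact this
  rw [← h1, ← image_extremePoints]
  exact Set.ncard_image_of_injective _ phi.injective

/-- dichotomy for the matrices: polynomial growth if there is a solution -/
theorem poly_of_zero {C : ℤ} {c : I t D → ℤ} {ρ : ℝ} (hG : Good (C : ℝ) c ρ)
    (hP : ∀ n : Fin t → ℕ, 0 ≤ dc c (ev n)) (n : Fin t → ℕ)
    (hn : dc c (ev n : I t D → ℝ) = 0)
    (S : Set (Matrix (Fin (dm t D)) (Fin (dm t D)) ℝ)) (hS : S = Set.range (mtx C c)) :
    PolyGrowth S := by
  obtain ⟨α, d, hα, hd, h⟩ := up hG hP n hn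
  refine ⟨α, d, by exact_mod_cast hα, by exact_mod_cast hd, 1, one_pos, ?_⟩
  intro k hk a
  have h1 := h k hk (phi.symm a)
  have h2 := vertices_phi C c S hS (phi.symm a) k
  rw [LinearEquiv.apply_symm_apply] at h2
  rw [h2, Real.rpow_natCast]
  exact_mod_cast h1

/-- and exponential growth if there is none -/
theorem exp_of_ne {C : ℤ} {c : I t D → ℤ} (hC : 1 ≤ C)
    (hP : ∀ n : Fin t → ℕ, 1 ≤ dc c (ev n))
    (S : Set (Matrix (Fin (dm t D)) (Fin (dm t D)) ℝ)) (hS : S = Set.range (mtx C c)) (k : ℕ) :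
    2 ^ (k - 1) ≤ vertices S (phi (a0 : V t D)) k := by
  rw [vertices_phi C c S hS]
  exact low (C : ℝ) (by exact_mod_cast hC) c hP k

theorem not_poly {n : ℕ} (S : Set (Matrix (Fin n) (Fin n) ℝ)) (a : Fin n → ℝ)
    (h : ∀ k, 2 ^ (k - 1) ≤ vertices S a k) : ¬ PolyGrowth S := by
  rintro ⟨α, d, hα, hd, k₀, hk₀, hk⟩
  obtain ⟨D, hD⟩ := exists_nat_ge d
  -- `α (k : ℝ) ^ d ≤ α (k : ℝ) ^ D`, and `2 ^ (k - 1)` grows faster
  have h1 : ∀ k : ℕ, k₀ ≤ k → (2 : ℝ) ^ k ≤ 2 * α * (k : ℝ) ^ D := by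
    intro k hkk
    have hk1 : (1 : ℝ) ≤ k := by
      exact_mod_cast (by omega : 1 ≤ k)
    have h2 := hk k hkk a
    have h3 : ((2 ^ (k - 1) : ℕ) : ℝ) ≤ vertices S a k := by exact_mod_cast h k
    have h4 : (k : ℝ) ^ d ≤ (k : ℝ) ^ D := by
      rw [← Real.rpow_natCast]
      exact Real.rpow_le_rpow_of_exponent_le hk1 hD
    have h5 : (2 : ℝ) ^ k = 2 * ((2 ^ (k - 1) : ℕ) : ℝ) := by
      have : k = (k - 1) + 1 := by omega
      conv_lhs => rw [this]
      push_cast
      rw [pow_succ]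
      ring
    rw [h5]
    have h6 : α * (k : ℝ) ^ d ≤ α * (k : ℝ) ^ D := mul_le_mul_of_nonneg_left h4 hα.le
    linarith
  have h7 := tendsto_pow_const_div_const_pow_of_one_lt D (by norm_num : (1 : ℝ) < 2)
  have h8 : ∀ᶠ k : ℕ in Filter.atTop, (k : ℝ) ^ D / 2 ^ k < 1 / (2 * α) := by
    refine h7.eventually_lt_const ?_
    positivity
  obtain ⟨k, hk8, hkk⟩ := (h8.and (Filter.eventually_ge_atTop k₀)).exists
  have h9 := h1 k hkk
  rw [div_lt_div_iff₀ (by positivity) (by positivity)] at hk8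
  linarith

end Pool.Agent.N574.PV
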