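import Pool.Agent.N574.Low

/-! Polynomial vertex growth: the estimates if the equation has a solution. -/

set_option autoImplicit false

namespace Pool.Agent.N574.PV

open Finset

variable {t D : ℕ}

/-- number of letters different from `S` -/
def ns : List (Letter t) → ℕ
  | [] => 0
  | .S :: w => ns w
  | _ :: w => ns w + 1

/-- special letters -/
def isSp : Letter t → Bool
  | .S => false
  | .Mv _ => false
  | _ => true

theorem sp_le_ns (w : List (Letter t)) : w.countP isSp ≤ ns w := by
  induction w with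
  | nil => simp
  | cons g w ih =>
    rw [List.countP_cons]
    cases g <;> simp [isSp, ns] <;> omega

theorem ns_le (w : List (Letter t)) : ns w ≤ w.length := by
  induction w with
  | nil => simp [ns]
  | cons g w ih =>
    cases g <;> simp [ns] <;> omega

def nrm (v : V t D) : ℝ := ∑ i, v.1 i + ∑ e, v.2.1 e

def psi (v : V t D) : ℝ := v.2.2 + nrm v

theorem sum_smul_ev_zero (r : ℝ) :
    ∑ e : I t D, (r • (ev (fun _ => 0) : I t D → ℝ)) e = r := by
  classical
  simp only [Pi.smul_apply, smul_eq_mul, ← Finset.mul_sum]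
  rw [ev_zero, Finset.sum_pi_single']
  simp

theorem cone_x (v : V t D) (hv : Cone v) (e : I t D) : 0 ≤ v.2.1 e := by
  obtain ⟨_, ⟨σ, n, hσ, hx⟩, _⟩ := hv
  rw [hx]
  exact mul_nonneg hσ (ev_nonneg n e)

theorem nrm_nonneg (v : V t D) (hv : Cone v) : 0 ≤ nrm v :=
  add_nonneg (Finset.sum_nonneg fun i _ => hv.1 i) (Finset.sum_nonneg fun e _ => cone_x v hv e)

/-- the constants -/
structure Good (C : ℝ) (c : I t D → ℤ) (ρ : ℝ) : Prop where
  h6 : 6 ≤ ρ
  hsh : ∀ (i : Fin t) (x : I t D → ℝ), (∀ e, 0 ≤ x e) →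
    ∑ e, ((shM i).map (Int.cast : ℤ → ℝ)).mulVec x e ≤ ρ * ∑ e, x e
  h2 : 2 * ρ ≤ C
  h26 : 26 ≤ C
  hc : ∑ e, |(c e : ℝ)| + 1 ≤ C

theorem zM_sum (b : Bool) (z : Fin 3 → ℝ) (hz : ∀ i, 0 ≤ z i) :
    ∑ i, ((zM b).map (Int.cast : ℤ → ℝ)).mulVec z i ≤ 6 * ∑ i, z i := by
  have h0 := hz 0
  have h1 := hz 1
  have h2 := hz 2
  cases b <;>
    simp [zM, Matrix.mulVec, dotProduct, Fin.sum_univ_three, Matrix.map_apply] <;> linarith

theorem nrm_act {C ρ : ℝ} {c : I t D → ℤ} (hG : Good C c ρ) (g : Letter t) (hg : g ≠ .S)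
    (v : V t D) (hv : Cone v) : nrm (act C c g v) ≤ ρ * nrm v := by
  have h6 := hG.h6
  have hz := hv.1
  have hx := cone_x v hv
  have hsz : 0 ≤ ∑ i, v.1 i := Finset.sum_nonneg fun i _ => hz i
  have hsx : 0 ≤ ∑ e, v.2.1 e := Finset.sum_nonneg fun e _ => hx e
  cases g with
  | S => exact absurd rfl hg
  | Zt b =>
    rw [act_Zt]
    have := zM_sum b v.1 hz
    simp only [nrm, Pi.zero_apply, Finset.sum_const_zero, add_zero]
    nlinarith
  | En l =>
    rw [act_En]
    have h1 : ∑ e : I t D, (v.1 l • (ev (fun _ => 0) : I t D → ℝ)) e = v.1 l :=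
      sum_smul_ev_zero _
    have h2 : v.1 l ≤ ∑ i, v.1 i := Finset.single_le_sum (fun i _ => hz i) (Finset.mem_univ l)
    simp only [nrm, Pi.zero_apply, Finset.sum_const_zero, zero_add]
    rw [h1]
    nlinarith
  | Mv i =>
    rw [act_Mv]
    have := hG.hsh i v.2.1 hx
    simp only [nrm, Pi.zero_apply, Finset.sum_const_zero, zero_add]
    nlinarith
  | Ex j =>
    rw [act_Ex]
    have h2 : v.2.1 0 ≤ ∑ e, v.2.1 e := Finset.single_le_sum (fun i _ => hx i) (Finset.mem_univ 0)
    simp only [nrm, Pi.zero_apply, Finset.sum_const_zero, add_zero]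
    rw [Finset.sum_pi_single']
    simp only [Finset.mem_univ, if_true]
    nlinarith
  | K l =>
    rw [act_K]
    simp only [nrm, Pi.zero_apply, Finset.sum_const_zero, add_zero]
    nlinarith
  | O =>
    rw [act_O]
    simp only [nrm, Pi.zero_apply, Finset.sum_const_zero, add_zero]
    nlinarith

theorem nrm_S (C : ℝ) (c : I t D → ℤ) (v : V t D) : nrm (act C c .S v) = C * nrm v := by
  rw [act_S]
  simp [nrm, mul_add, Finset.mul_sum]

theorem dc_le (c : I t D → ℤ) (x : I t D → ℝ) (hx : ∀ e, 0 ≤ x e) :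
    dc c x ≤ (∑ e, |(c e : ℝ)|) * ∑ e, x e := by
  unfold dc
  rw [Finset.sum_mul]
  refine Finset.sum_le_sum fun e _ => ?_
  have h1 : x e ≤ ∑ e, x e := Finset.single_le_sum (fun i _ => hx i) (Finset.mem_univ e)
  calc (c e : ℝ) * x e ≤ |(c e : ℝ)| * x e := mul_le_mul_of_nonneg_right (le_abs_self _) (hx e)
    _ ≤ |(c e : ℝ)| * ∑ e, x e := mul_le_mul_of_nonneg_left h1 (abs_nonneg _)

theorem psi_act {C ρ : ℝ} {c : I t D → ℤ} (hG : Good C c ρ)
    (g : Letter t) (v : V t D) (hv : Cone v) : psi (act C c g v) ≤ C * psi v := by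
  have h6 := hG.h6
  have h2 := hG.h2
  have h26 := hG.h26
  have hn := nrm_nonneg v hv
  have hz := hv.1
  have hx := cone_x v hv
  have hsz : 0 ≤ ∑ i, v.1 i := Finset.sum_nonneg fun i _ => hz i
  have hsx : 0 ≤ ∑ e, v.2.1 e := Finset.sum_nonneg fun e _ => hx e
  by_cases hg : g = .S
  · subst hg
    unfold psi
    rw [nrm_S, act_S]
    simp [mul_add]
  · have h3 := nrm_act hG g hg v hv
    have h4 : ρ * nrm v ≤ C * nrm v := mul_le_mul_of_nonneg_right (by linarith) hn
    cases g with
    | S => exact absurd rfl hg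
    | Zt b =>
      unfold psi
      rw [act_Zt] at h3 ⊢
      show C * v.2.2 + _ ≤ _
      linarith
    | En l =>
      unfold psi
      rw [act_En] at h3 ⊢
      show C * v.2.2 + _ ≤ _
      linarith
    | Mv i =>
      unfold psi
      rw [act_Mv] at h3 ⊢
      show C * v.2.2 + _ ≤ _
      linarith
    | Ex j =>
      unfold psi
      rw [act_Ex]
      have h5 := dc_le c v.2.1 hx
      have h7 : v.2.1 0 ≤ ∑ e, v.2.1 e :=
        Finset.single_le_sum (fun i _ => hx i) (Finset.mem_univ 0)
      have h8 : (∑ e, |(c e : ℝ)| + 1) * ∑ e, v.2.1 e ≤ C * ∑ e, v.2.1 e :=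
        mul_le_mul_of_nonneg_right hG.hc hsx
      simp only [nrm, Pi.zero_apply, Finset.sum_const_zero, add_zero]
      rw [Finset.sum_pi_single']
      simp only [Finset.mem_univ, if_true]
      nlinarith
    | K l =>
      unfold psi
      rw [act_K]
      have h7 : v.1 l ≤ ∑ i, v.1 i :=
        Finset.single_le_sum (fun i _ => hz i) (Finset.mem_univ l)
      simp only [nrm, Pi.zero_apply, Finset.sum_const_zero, add_zero]
      nlinarith
    | O =>
      unfold psi
      rw [act_O]
      simp only [nrm, Pi.zero_apply, Finset.sum_const_zero, add_zero]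
      nlinarith

theorem cone_act' {C : ℝ} (hC : 0 ≤ C) {c : I t D → ℤ}
    (hP : ∀ n : Fin t → ℕ, 0 ≤ dc c (ev n)) (w : List (Letter t)) (v : V t D) (hv : Cone v) :
    Cone (act' C c w v) := by
  induction w generalizing v with
  | nil => exact hv
  | cons g w ih => exact ih _ (cone_act C hC c hP g v hv)

theorem nrm_act' {C ρ : ℝ} {c : I t D → ℤ} (hG : Good C c ρ)
    (hP : ∀ n : Fin t → ℕ, 0 ≤ dc c (ev n)) (w : List (Letter t)) (v : V t D) (hv : Cone v) :
    nrm (act' C c w v) * 2 ^ ns w ≤ C ^ w.length * nrm v := by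
  have h6 := hG.h6
  have h2 := hG.h2
  have hC : 0 ≤ C := by linarith
  induction w generalizing v with
  | nil => simp [ns]
  | cons g w ih =>
    have h3 := ih (act C c g v) (cone_act C hC c hP g v hv)
    have hn := nrm_nonneg v hv
    have hCw : 0 ≤ C ^ w.length := pow_nonneg hC _
    show nrm (act' C c w (act C c g v)) * 2 ^ ns (g :: w) ≤ C ^ (g :: w).length * nrm v
    by_cases hg : g = .S
    · subst hg
      rw [nrm_S] at h3
      simp only [ns, List.length_cons, pow_succ]
      linarith
    · have h4 := nrm_act hG g hg v hv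
      have h5 : 2 * nrm (act C c g v) ≤ C * nrm v := by nlinarith
      have h7 : ns (g :: w) = ns w + 1 := by
        cases g <;> simp_all [ns]
      rw [h7, List.length_cons, pow_succ, pow_succ]
      have h8 : C ^ w.length * (2 * nrm (act C c g v)) ≤ C ^ w.length * (C * nrm v) :=
        mul_le_mul_of_nonneg_left h5 hCw
      linarith

theorem psi_act' {C ρ : ℝ} {c : I t D → ℤ} (hG : Good C c ρ)
    (hP : ∀ n : Fin t → ℕ, 0 ≤ dc c (ev n)) (w : List (Letter t)) (v : V t D) (hv : Cone v) :
    psi (act' C c w v) ≤ C ^ w.length * psi v := by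
  have h6 := hG.h6
  have h2 := hG.h2
  have hC : 0 ≤ C := by linarith
  induction w generalizing v with
  | nil => simp
  | cons g w ih =>
    have h3 := ih (act C c g v) (cone_act C hC c hP g v hv)
    have h4 := psi_act hG g v hv
    have hCw : 0 ≤ C ^ w.length := pow_nonneg hC _
    show psi (act' C c w (act C c g v)) ≤ C ^ (g :: w).length * psi v
    rw [List.length_cons, pow_succ]
    have h5 := mul_le_mul_of_nonneg_left h4 hCw
    linarith

/-- unit vectors of the first block -/
def ez (l : Fin 3) : V t D := (Pi.single l 1, 0, 0)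

theorem act'_last (C : ℝ) (c : I t D → ℤ) (w : List (Letter t)) (r : ℝ) :
    act' C c w ((0, 0, r) : V t D) = (0, 0, C ^ w.length * r) := by
  induction w generalizing r with
  | nil => simp
  | cons g w ih =>
    have h : act C c g ((0, 0, r) : V t D) = (0, 0, C * r) := by
      cases g with
      | S => rw [act_S]; simp
      | Zt b => rw [act_Zt]; simp
      | En l => rw [act_En]; simp
      | Mv i => rw [act_Mv]; simp
      | Ex j => rw [act_Ex]; simp [dc]
      | K l => rw [act_K]; simp
      | O => rw [act_O]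
    show act' C c w (act C c g _) = _
    rw [h, ih, List.length_cons, pow_succ, mul_assoc]

/-- the total weight needed to dominate a word -/
def wt (C : ℝ) (c : I t D → ℤ) (τ : ℕ) (w : List (Letter t)) : ℝ :=
  ∑ l : Fin 3, (C ^ τ * ∑ j, (act' C c w (ez l)).1 j + (act' C c w (ez l)).2.2)

theorem wt_aux {C ρ : ℝ} {c : I t D → ℤ} (hG : Good C c ρ)
    (hP : ∀ n : Fin t → ℕ, 0 ≤ dc c (ev n)) (τ R : ℕ) (hR : C ^ τ ≤ 2 ^ R)
    (w : List (Letter t)) (hw : R ≤ ns w) (v : V t D) (hv : Cone v) (hl : v.2.2 = 0) :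
    C ^ τ * ∑ j, (act' C c w v).1 j + (act' C c w v).2.2 ≤ 2 * C ^ w.length * nrm v := by
  have h6 := hG.h6
  have h2 := hG.h2
  have hC : 0 ≤ C := by linarith
  have h1 := nrm_act' hG hP w v hv
  have h3 := psi_act' hG hP w v hv
  have hc' := cone_act' hC hP w v hv
  have h4 : 0 ≤ ∑ e, (act' C c w v).2.1 e := Finset.sum_nonneg fun e _ => cone_x _ hc' e
  have h5 : 0 ≤ ∑ j, (act' C c w v).1 j := Finset.sum_nonneg fun e _ => hc'.1 e
  have h7 : (2 : ℝ) ^ R ≤ 2 ^ ns w := pow_le_pow_right₀ (by norm_num) hw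
  have h8 : ∑ j, (act' C c w v).1 j ≤ nrm (act' C c w v) := by
    unfold nrm; linarith
  have h9 : C ^ τ * ∑ j, (act' C c w v).1 j ≤ C ^ w.length * nrm v := by
    calc C ^ τ * ∑ j, (act' C c w v).1 j ≤ 2 ^ ns w * nrm (act' C c w v) := by
          apply mul_le_mul (hR.trans h7) h8 h5 (by positivity)
      _ ≤ C ^ w.length * nrm v := by linarith
  have h10 : (act' C c w v).2.2 ≤ C ^ w.length * nrm v := by
    have : psi v = nrm v := by unfold psi; rw [hl]; ring
    rw [this] at h3
    have h11 := nrm_nonneg _ hc'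
    unfold psi at h3
    linarith
  linarith

theorem wt_le {C ρ : ℝ} {c : I t D → ℤ} (hG : Good C c ρ)
    (hP : ∀ n : Fin t → ℕ, 0 ≤ dc c (ev n)) (τ R : ℕ) (hR : C ^ τ ≤ 2 ^ R)
    (w : List (Letter t)) (hw : R + 1 ≤ ns w) :
    wt C c τ w ≤ C ^ w.length := by
  have h6 := hG.h6
  have h2 := hG.h2
  have h26 := hG.h26
  have hC : 0 ≤ C := by linarith
  induction w with
  | nil => simp [ns] at hw
  | cons g w ih =>
    have hCw : 0 ≤ C ^ w.length := pow_nonneg hC _
    cases g with
    | S =>
      have h3 := ih (by simpa [ns] using hw)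
      have h4 : wt C c τ (.S :: w) = C * wt C c τ w := by
        unfold wt
        rw [Finset.mul_sum]
        refine Finset.sum_congr rfl fun l _ => ?_
        have h5 : act' C c (.S :: w) (ez l : V t D) = C • act' C c w (ez l) := by
          show act' C c w (act C c .S _) = _
          rw [act_S, map_smul]
        rw [h5]
        simp only [Prod.smul_fst, Prod.smul_snd, Pi.smul_apply, smul_eq_mul, ← Finset.mul_sum]
        ring
      rw [h4, List.length_cons, pow_succ]
      nlinarith
    | Zt b =>
      have hw' : R ≤ ns w := by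
        simp only [ns] at hw
        omega
      have h3 : ∀ l : Fin 3, act' C c (.Zt b :: w) (ez l : V t D) =
          act' C c w ((((zM b).map (Int.cast : ℤ → ℝ)).mulVec (Pi.single l 1), 0, 0) : V t D) := by
        intro l
        show act' C c w (act C c (.Zt b) _) = _
        rw [act_Zt]
        simp [ez]
      have h4 : ∀ l : Fin 3, C ^ τ * ∑ j, (act' C c (.Zt b :: w) (ez l : V t D)).1 j +
          (act' C c (.Zt b :: w) (ez l : V t D)).2.2 ≤ 2 * C ^ w.length *
            ∑ i, ((zM b).map (Int.cast : ℤ → ℝ)).mulVec (Pi.single l 1) i := by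
        intro l
        rw [h3 l]
        refine (wt_aux hG hP τ R hR w hw' _ ?_ rfl).trans (le_of_eq ?_)
        · refine ⟨zM_nonneg b _ fun i => ?_, ⟨0, fun _ => 0, le_rfl, by simp⟩, le_rfl⟩
          by_cases hil : i = l
          · subst hil; simp
          · simp [hil]
        · simp [nrm]
      have h5 : ∑ l : Fin 3, ∑ i, ((zM b).map (Int.cast : ℤ → ℝ)).mulVec (Pi.single l 1) i
          ≤ 13 := by
        cases b <;>
        · simp [zM, Fin.sum_univ_three, Matrix.map_apply]
          norm_num
      unfold wt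
      refine (Finset.sum_le_sum fun l _ => h4 l).trans ?_
      rw [← Finset.mul_sum, List.length_cons, pow_succ]
      nlinarith
    | En l0 =>
      have hw' : R ≤ ns w := by
        simp only [ns] at hw
        omega
      have h3 : ∀ l : Fin 3, act' C c (.En l0 :: w) (ez l : V t D) =
          act' C c w ((0, (Pi.single l 1 : Fin 3 → ℝ) l0 • ev (fun _ => 0), 0) : V t D) := by
        intro l
        show act' C c w (act C c (.En l0) _) = _
        rw [act_En]
        simp [ez]
      have h4 : ∀ l : Fin 3, C ^ τ * ∑ j, (act' C c (.En l0 :: w) (ez l : V t D)).1 j +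
          (act' C c (.En l0 :: w) (ez l : V t D)).2.2 ≤ 2 * C ^ w.length *
            (Pi.single l 1 : Fin 3 → ℝ) l0 := by
        intro l
        rw [h3 l]
        refine (wt_aux hG hP τ R hR w hw' _ ?_ rfl).trans (le_of_eq ?_)
        · refine ⟨fun i => le_rfl, ⟨_, fun _ => 0, ?_, rfl⟩, le_rfl⟩
          by_cases hil : l0 = l
          · subst hil; simp
          · simp [hil]
        · have h1 : ∑ e : I t D, ((Pi.single l 1 : Fin 3 → ℝ) l0 •
              (ev (fun _ => 0) : I t D → ℝ)) e = (Pi.single l 1 : Fin 3 → ℝ) l0 :=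
            sum_smul_ev_zero _
          simp only [nrm, Pi.zero_apply, Finset.sum_const_zero, zero_add]
          rw [h1]
      have h5 : ∑ l : Fin 3, (Pi.single l 1 : Fin 3 → ℝ) l0 = 1 := by
        rw [Finset.sum_pi_single]
        simp
      unfold wt
      refine (Finset.sum_le_sum fun l _ => h4 l).trans ?_
      rw [← Finset.mul_sum, List.length_cons, pow_succ, h5]
      nlinarith
    | Mv i =>
      have h3 : ∀ l : Fin 3, act' C c (.Mv i :: w) (ez l : V t D) = (0, 0, 0) := by
        intro l
        show act' C c w (act C c (.Mv i) _) = _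
        rw [act_Mv]
        have : ((0, ((shM i).map (Int.cast : ℤ → ℝ)).mulVec (ez l : V t D).2.1,
            C * (ez l : V t D).2.2) : V t D) = (0, 0, 0) := by simp [ez]
        rw [this, act'_last]
        simp
      unfold wt
      simp only [h3]
      simp only [Pi.zero_apply, Finset.sum_const_zero, mul_zero, add_zero]
      positivity
    | Ex j =>
      have h3 : ∀ l : Fin 3, act' C c (.Ex j :: w) (ez l : V t D) = (0, 0, 0) := by
        intro l
        show act' C c w (act C c (.Ex j) _) = _
        rw [act_Ex]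
        have : ((Pi.single j ((ez l : V t D).2.1 0), 0,
            C * (ez l : V t D).2.2 + dc c (ez l : V t D).2.1) : V t D) = (0, 0, 0) := by
          simp [ez, dc]
        rw [this, act'_last]
        simp
      unfold wt
      simp only [h3]
      simp only [Pi.zero_apply, Finset.sum_const_zero, mul_zero, add_zero]
      positivity
    | K l0 =>
      have h3 : ∀ l : Fin 3, act' C c (.K l0 :: w) (ez l : V t D) =
          (0, 0, C ^ w.length * (C * (Pi.single l 1 : Fin 3 → ℝ) l0)) := by
        intro l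
        show act' C c w (act C c (.K l0) _) = _
        rw [act_K]
        have : ((0, 0, C * (ez l : V t D).2.2 + C * (ez l : V t D).1 l0) : V t D) =
            (0, 0, C * (Pi.single l 1 : Fin 3 → ℝ) l0) := by simp [ez]
        rw [this, act'_last]
      have h5 : ∑ l : Fin 3, (Pi.single l 1 : Fin 3 → ℝ) l0 = 1 := by
        rw [Finset.sum_pi_single]
        simp
      unfold wt
      simp only [h3]
      simp only [Pi.zero_apply, Finset.sum_const_zero, mul_zero, zero_add]
      rw [← Finset.mul_sum, ← Finset.mul_sum, h5, List.length_cons, pow_succ, mul_one]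
    | O =>
      have h3 : ∀ l : Fin 3, act' C c (.O :: w) (ez l : V t D) = (0, 0, 0) := by
        intro l
        show act' C c w (act C c .O _) = _
        rw [act_O]
        have : ((0, 0, C * (ez l : V t D).2.2) : V t D) = (0, 0, 0) := by simp [ez]
        rw [this, act'_last]
        simp
      unfold wt
      simp only [h3]
      simp only [Pi.zero_apply, Finset.sum_const_zero, mul_zero, add_zero]
      positivity

end Pool.Agent.N574.PV
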